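import Pool.Agent.U106.TR.Exc

/-!
The endomorphisms of `ℤ² ⋉ ℤ[1/6]` given by the multiplications of the translations by `m`, and the
exceptional traces near the regular trace.
-/

set_option autoImplicit false

open MeasureTheory Filter Topology Set
open scoped ComplexOrder

namespace Pool.Agent.U106.TR

open Pool.Agent.U106.FC

/-- `x ↦ m x` -/
def dil (m : ℕ) (hm : 1 ≤ m) : Equiv.Perm ℚ :=
  Equiv.mulLeft₀ (m : ℚ) (by exact_mod_cast (by omega : m ≠ 0))

lemma conj_mem (m : ℕ) (hm : 1 ≤ m) (g : Equiv.Perm ℚ) (hg : g ∈ G) :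
    dil m hm * g * (dil m hm)⁻¹ ∈ G := by
  have hm0 : (m : ℚ) ≠ 0 := by exact_mod_cast (by omega : m ≠ 0)
  have e0 : ∀ y, (dil m hm) y = m * y := fun y => rfl
  have e1 : ∀ x, (dil m hm)⁻¹ x = x / m := fun x => by
    rw [Equiv.Perm.inv_eq_iff_eq, e0]; field_simp
  have m1 : s1 ∈ G := Subgroup.subset_closure (by simp)
  have m2 : s2 ∈ G := Subgroup.subset_closure (by simp)
  have m3 : s3 ∈ G := Subgroup.subset_closure (by simp)
  have hpow : ∀ (k : ℕ) (x : ℚ), (s1 ^ k) x = x + k := by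
    intro k
    induction k with
    | zero => intro x; simp
    | succ k ih =>
      intro x
      rw [pow_succ, Equiv.Perm.mul_apply, ih]
      change (x + 1) + (k : ℚ) = x + ((k + 1 : ℕ) : ℚ)
      push_cast; ring
  induction hg using Subgroup.closure_induction with
  | mem x hx =>
    rcases hx with rfl | rfl | rfl
    · have : dil m hm * s2 * (dil m hm)⁻¹ = s2 := by
        ext x
        rw [Equiv.Perm.mul_apply, Equiv.Perm.mul_apply, e1, e0]
        change (m : ℚ) * (2 * (x / m)) = 2 * x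
        field_simp
      rw [this]; exact m2
    · have : dil m hm * s3 * (dil m hm)⁻¹ = s3 := by
        ext x
        rw [Equiv.Perm.mul_apply, Equiv.Perm.mul_apply, e1, e0]
        change (m : ℚ) * (3 * (x / m)) = 3 * x
        field_simp
      rw [this]; exact m3
    · have : dil m hm * s1 * (dil m hm)⁻¹ = s1 ^ m := by
        ext x
        rw [Equiv.Perm.mul_apply, Equiv.Perm.mul_apply, e1, e0, hpow]
        change (m : ℚ) * (x / m + 1) = x + m
        field_simp
      rw [this]; exact pow_mem m1 m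
  | one => simp
  | mul a b _ _ ha hb =>
    have : dil m hm * (a * b) * (dil m hm)⁻¹ =
        (dil m hm * a * (dil m hm)⁻¹) * (dil m hm * b * (dil m hm)⁻¹) := by group
    rw [this]; exact mul_mem ha hb
  | inv a _ ha =>
    have : dil m hm * a⁻¹ * (dil m hm)⁻¹ = (dil m hm * a * (dil m hm)⁻¹)⁻¹ := by group
    rw [this]; exact inv_mem ha

/-- The endomorphism `(x ↦ a x + r) ↦ (x ↦ a x + m r)`. -/
def amp (m : ℕ) (hm : 1 ≤ m) : G →* G where
  toFun g := ⟨dil m hm * g * (dil m hm)⁻¹, conj_mem m hm g g.2⟩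
  map_one' := by
    apply Subtype.ext
    simp
  map_mul' a b := by
    apply Subtype.ext
    simp only [Subgroup.coe_mul]
    group

lemma amp_apply (m : ℕ) (hm : 1 ≤ m) (g : G) (x : ℚ) :
    (amp m hm g : Equiv.Perm ℚ) (m * x) = m * (g : Equiv.Perm ℚ) x := by
  have hm0 : (m : ℚ) ≠ 0 := by exact_mod_cast (by omega : m ≠ 0)
  have e0 : ∀ y, (dil m hm) y = m * y := fun y => rfl
  have e1 : (dil m hm)⁻¹ ((m : ℚ) * x) = x := by
    rw [Equiv.Perm.inv_eq_iff_eq, e0]
  change (dil m hm * g * (dil m hm)⁻¹ : Equiv.Perm ℚ) (m * x) = _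
  rw [Equiv.Perm.mul_apply, Equiv.Perm.mul_apply, e1, e0]

lemma amp_of (m : ℕ) (hm : 1 ≤ m) (g : G) : of (amp m hm g) = m * of g := by
  have := amp_apply m hm g 0
  rw [mul_zero] at this
  exact this

lemma amp_sl (m : ℕ) (hm : 1 ≤ m) (g : G) : sl (amp m hm g) = sl g := by
  have hm0 : (m : ℚ) ≠ 0 := by exact_mod_cast (by omega : m ≠ 0)
  have h1 := amp_apply m hm g 1
  rw [gapply, gapply g, amp_of] at h1
  have h2 : (m : ℚ) * (sl (amp m hm g) - sl g) = 0 := by linear_combination h1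
  rcases mul_eq_zero.1 h2 with h | h
  · exact absurd h hm0
  · linarith

lemma inv_map {μ : Measure UnitAddCircle} (h : Inv μ) (m : ℕ) : Inv (μ.map (mul m)) :=
  ⟨mp_map h.1, mp_map h.2⟩

lemma traceOf_amp {μ : Measure UnitAddCircle} (h : Inv μ) (m : ℕ) (hm : 1 ≤ m) :
    traceOf μ ∘ amp m hm = traceOf (μ.map (mul m)) := by
  funext g
  rw [Function.comp_apply, traceOf, traceOf, amp_sl, amp_of]
  by_cases hg : sl g = 1
  · rw [if_pos hg, if_pos hg]
    obtain ⟨n, k, hr⟩ := of_six g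
    rw [val_eq (inv_map h m) hr, co_map, val_eq h (n := n * m) (k := k)]
    rw [hr]; push_cast; ring
  · rw [if_neg hg, if_neg hg]

lemma co_neg (μ : Measure UnitAddCircle) (n : ℤ) : ‖co μ (-n)‖ = ‖co μ n‖ := by
  have : co μ (-n) = (starRingEnd ℂ) (co μ n) := by
    unfold co
    rw [← integral_conj]
    refine integral_congr_ae (Eventually.of_forall fun x => ?_)
    simp only
    rw [fourier_neg]
  rw [this, RCLike.norm_conj]

lemma exists_small {μ : Measure UnitAddCircle} [IsProbabilityMeasure μ] (h : ∀ x, μ {x} = 0)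
    (K : ℕ) {ε : ℝ} (hε : 0 < ε) :
    ∃ m : ℕ, 1 ≤ m ∧ ∀ k : ℕ, 1 ≤ k → k ≤ K → ‖co μ (m * k : ℕ)‖ < ε := by
  by_contra hcon
  push Not at hcon
  have h1 := density h K hε
  have h2 := (h1.eventually (gt_mem_nhds (show (0 : ℝ) < 1 / 2 by norm_num))).and
    (eventually_ge_atTop 2)
  obtain ⟨N, hN, hN2⟩ := h2.exists
  have h3 : (Finset.Ico 1 N : Set ℕ) ⊆ {m : ℕ | m < N ∧
      ∃ k : ℕ, 1 ≤ k ∧ k ≤ K ∧ ε ≤ ‖co μ (m * k : ℕ)‖} := by
    intro m hm
    rw [Finset.coe_Ico, mem_Ico] at hm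
    exact ⟨hm.2, hcon m hm.1⟩
  have h4 := Set.ncard_le_ncard h3 ((Set.finite_lt_nat N).subset fun m hm => hm.1)
  rw [Set.ncard_coe_finset, Nat.card_Ico] at h4
  have h5 : ((N - 1 : ℕ) : ℝ) ≤ (({m : ℕ | m < N ∧
      ∃ k : ℕ, 1 ≤ k ∧ k ≤ K ∧ ε ≤ ‖co μ (m * k : ℕ)‖}.ncard : ℕ) : ℝ) := by exact_mod_cast h4
  have hN0 : (0 : ℝ) < N := by positivity
  rw [inv_mul_lt_iff₀ hN0] at hN
  rw [Nat.cast_sub (by omega), Nat.cast_one] at h5
  have h6 : (2 : ℝ) ≤ N := by exact_mod_cast hN2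
  linarith

/-- The exceptional traces accumulate at the regular trace. -/
theorem tendsto_reg {μ : Measure UnitAddCircle} [IsProbabilityMeasure μ] (hi : Inv μ)
    (h : ∀ x, μ {x} = 0) : ∃ m : ℕ → ℕ, (∀ K, 1 ≤ m K) ∧
      Tendsto (fun K => traceOf (μ.map (mul (m K)))) atTop (𝓝 reg) := by
  choose m hm1 hm using fun K : ℕ => exists_small h K (ε := 1 / ((K : ℝ) + 1)) (by positivity)
  refine ⟨m, hm1, ?_⟩
  rw [tendsto_pi_nhds]
  intro g
  have hp : ∀ K, IsProbabilityMeasure (μ.map (mul (m K))) := fun K =>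
    Measure.isProbabilityMeasure_map (cont_mul _).measurable.aemeasurable
  by_cases hg1 : g = 1
  · have e : ∀ K, traceOf (μ.map (mul (m K))) g = 1 := fun K => by
      have := hp K
      rw [hg1, traceOf_one (inv_map hi _)]
    simp_rw [e]
    rw [hg1, reg, Set.indicator_of_mem (by simp)]
    exact tendsto_const_nhds
  rw [reg, Set.indicator_of_notMem (by simpa using hg1)]
  by_cases hg : sl g = 1
  · obtain ⟨n, k, hr⟩ := of_six g
    have hn : n ≠ 0 := by
      rintro rfl
      apply hg1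
      exact ext' (by rw [hg, sl_one]) (by rw [hr, of_one]; simp)
    have e : ∀ K, traceOf (μ.map (mul (m K))) g = co μ (n * m K) := fun K => by
      rw [traceOf, if_pos hg, val_eq (inv_map hi _) hr, co_map]
    simp_rw [e]
    rw [tendsto_zero_iff_norm_tendsto_zero]
    refine squeeze_zero' (Eventually.of_forall fun K => norm_nonneg _) ?_
      tendsto_one_div_add_atTop_nhds_zero_nat
    filter_upwards [eventually_ge_atTop n.natAbs] with K hK
    have h1 := hm K n.natAbs (Int.natAbs_pos.2 hn) hK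
    have h2 : ‖co μ (n * m K)‖ = ‖co μ ((m K * n.natAbs : ℕ) : ℤ)‖ := by
      rcases Int.natAbs_eq n with h3 | h3
      · have e5 : n * (m K : ℤ) = ((m K * n.natAbs : ℕ) : ℤ) := by
          conv_lhs => rw [h3]
          push_cast; ring
        rw [e5]
      · have e5 : -(n * (m K : ℤ)) = ((m K * n.natAbs : ℕ) : ℤ) := by
          conv_lhs => rw [h3]
          push_cast; ring
        rw [← co_neg, e5]
    rw [h2]
    exact h1.le
  · have e : ∀ K, traceOf (μ.map (mul (m K))) g = 0 := fun K => by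
      rw [traceOf, if_neg hg]
    simp_rw [e]
    exact tendsto_const_nhds

end Pool.Agent.U106.TR
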