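import Pool.Agent.TH463.UQ.Trace
import Pool.Agent.R481.TraceBT
import Pool.Agent.U106.FC.Fibre

/-!
Tracial states of `C*(ℤ² ⋉ ℤ[1/6])` and measures on the circle invariant under `×2` and `×3`:
the trace of a measure. (The measure of a trace is in the starting files `W763`, `TH654`.)
-/

set_option autoImplicit false

open MeasureTheory Filter Topology Set
open scoped ComplexOrder

namespace Pool.Agent.U106.TR

open Pool.Agent.U106.FC
open Pool.Agent.W763.Tr (Six form)
open Pool.Agent.TH654.FC (Data data_of)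

/-- `x ↦ 2 x` -/
def s2 : Equiv.Perm ℚ := Equiv.mulLeft₀ 2 two_ne_zero
/-- `x ↦ 3 x` -/
def s3 : Equiv.Perm ℚ := Equiv.mulLeft₀ 3 three_ne_zero
/-- `x ↦ x + 1` -/
def s1 : Equiv.Perm ℚ := Equiv.addRight 1

/-- The group generated by `x ↦ 2 x`, `x ↦ 3 x`, `x ↦ x + 1` on `ℚ`, a copy of `ℤ² ⋉ ℤ[1/6]`. -/
def G : Subgroup (Equiv.Perm ℚ) := Subgroup.closure {s2, s3, s1}

/-- The normalised positive definite class functions on `G`: the tracial states of `C*(G)`. -/
def Traces : Set (G → ℂ) := {ψ | ψ 1 = 1 ∧ (∀ g h : G, ψ (h * g * h⁻¹) = ψ g) ∧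
  ∀ (s : Finset G) (c : G → ℂ), 0 ≤ ∑ i ∈ s, ∑ j ∈ s, star (c j) * c i * ψ (j⁻¹ * i)}

/-- `g` is a translation. -/
def Trans (g : G) : Prop := ∃ r : ℚ, ∀ x : ℚ, (g : Equiv.Perm ℚ) x = x + r

lemma gform (g : G) : ∃ (a b : ℤ) (r : ℚ), Six r ∧
    ∀ x, (g : Equiv.Perm ℚ) x = 2 ^ a * 3 ^ b * x + r :=
  form (s2 := s2) (s3 := s3) (t := s1) (fun _ => rfl) (fun _ => rfl) (fun _ => rfl) g g.2

/-- the slope -/
def sl (g : G) : ℚ := (g : Equiv.Perm ℚ) 1 - (g : Equiv.Perm ℚ) 0
/-- the value at `0` -/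
def of (g : G) : ℚ := (g : Equiv.Perm ℚ) 0

lemma sl_form (g : G) : ∃ a b : ℤ, sl g = 2 ^ a * 3 ^ b := by
  obtain ⟨a, b, r, -, h⟩ := gform g
  exact ⟨a, b, by rw [sl, h, h]; ring⟩

lemma of_six (g : G) : Six (of g) := by
  obtain ⟨a, b, r, hr, h⟩ := gform g
  rw [of, h]
  simpa using hr

lemma gapply (g : G) (x : ℚ) : (g : Equiv.Perm ℚ) x = sl g * x + of g := by
  obtain ⟨a, b, r, hr, h⟩ := gform g
  rw [sl, of, h, h, h]; ring

lemma sl_pos (g : G) : 0 < sl g := by
  obtain ⟨a, b, h⟩ := sl_form g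
  rw [h]; positivity

lemma sl_mul (g h : G) : sl (g * h) = sl g * sl h := by
  rw [sl, Subgroup.coe_mul, Equiv.Perm.mul_apply, Equiv.Perm.mul_apply, gapply g, gapply g,
    gapply h, gapply h]
  ring

lemma of_mul (g h : G) : of (g * h) = sl g * of h + of g := by
  rw [of, Subgroup.coe_mul, Equiv.Perm.mul_apply, gapply g]; rfl

lemma sl_one : sl 1 = 1 := by simp [sl]
lemma of_one : of 1 = 0 := by simp [of]

lemma sl_inv (g : G) : sl g⁻¹ = (sl g)⁻¹ := by
  have h := sl_mul g⁻¹ g
  rw [inv_mul_cancel, sl_one] at h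
  have := (sl_pos g).ne'
  field_simp
  linarith

lemma of_inv (g : G) : of g⁻¹ = -(of g / sl g) := by
  have h := of_mul g⁻¹ g
  rw [inv_mul_cancel, of_one, sl_inv] at h
  have := (sl_pos g).ne'
  field_simp at h ⊢
  linarith

lemma ext' {g h : G} (h1 : sl g = sl h) (h2 : of g = of h) : g = h := by
  apply Subtype.ext
  apply Equiv.ext
  intro x
  rw [gapply, gapply, h1, h2]

lemma trans_iff (g : G) : Trans g ↔ sl g = 1 := by
  constructor
  · rintro ⟨r, h⟩
    rw [sl, h, h]; ring
  · intro h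
    exact ⟨of g, fun x => by rw [gapply, h, one_mul]⟩

/-- invariance under `×2` and `×3` -/
def Inv (μ : Measure UnitAddCircle) : Prop :=
  MeasurePreserving (mul 2) μ μ ∧ MeasurePreserving (mul 3) μ μ

lemma co_mul {μ : Measure UnitAddCircle} {m : ℕ} (h : MeasurePreserving (mul m) μ μ) (n : ℤ) :
    co μ (n * m) = co μ n := by
  rw [← co_map, h.map_eq]

lemma co_six {μ : Measure UnitAddCircle} (h : Inv μ) (n : ℤ) (k : ℕ) :
    co μ (n * 6 ^ k) = co μ n := by
  induction k with
  | zero => simp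
  | succ k ih =>
    have e : n * 6 ^ (k + 1) = n * 6 ^ k * (2 : ℕ) * (3 : ℕ) := by push_cast; ring
    rw [e, co_mul h.2, co_mul h.1, ih]

open Classical in
/-- the value at the translation by `r` -/
noncomputable def val (μ : Measure UnitAddCircle) (r : ℚ) : ℂ :=
  if h : Six r then co μ h.choose else 0

lemma val_eq {μ : Measure UnitAddCircle} (h : Inv μ) {r : ℚ} {n : ℤ} {k : ℕ}
    (hr : r = n / 6 ^ k) : val μ r = co μ n := by
  have hs : Six r := ⟨n, k, hr⟩
  rw [val, dif_pos hs]
  obtain ⟨k', hk'⟩ := hs.choose_spec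
  generalize hs.choose = c at hk' ⊢
  have h1 : ((c * 6 ^ k : ℤ) : ℚ) = ((n * 6 ^ k' : ℤ) : ℚ) := by
    have h2 : (n : ℚ) / 6 ^ k = c / 6 ^ k' := by rw [← hr, hk']
    rw [div_eq_div_iff (by positivity) (by positivity)] at h2
    push_cast
    linarith
  have h2 : c * 6 ^ k = n * 6 ^ k' := by exact_mod_cast h1
  rw [← co_six h _ k, h2, co_six h]

lemma val_not {μ : Measure UnitAddCircle} {r : ℚ} (h : ¬ Six r) : val μ r = 0 := by
  rw [val, dif_neg h]

lemma val_zero {μ : Measure UnitAddCircle} [IsProbabilityMeasure μ] (h : Inv μ) :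
    val μ 0 = 1 := by
  rw [val_eq h (n := 0) (k := 0) (by simp)]
  simp [co]

lemma val_two {μ : Measure UnitAddCircle} (h : Inv μ) {r : ℚ} (hr : Six r) :
    val μ (2 * r) = val μ r := by
  obtain ⟨n, k, hr⟩ := hr
  rw [val_eq h hr, val_eq h (n := n * (2 : ℕ)) (k := k) (by rw [hr]; push_cast; ring), co_mul h.1]

lemma val_three {μ : Measure UnitAddCircle} (h : Inv μ) {r : ℚ} (hr : Six r) :
    val μ (3 * r) = val μ r := by
  obtain ⟨n, k, hr⟩ := hr
  rw [val_eq h hr, val_eq h (n := n * (3 : ℕ)) (k := k) (by rw [hr]; push_cast; ring), co_mul h.2]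

lemma val_two_zpow {μ : Measure UnitAddCircle} (h : Inv μ) (a : ℤ) {r : ℚ} (hr : Six r) :
    val μ (2 ^ a * r) = val μ r := by
  have key : ∀ (n : ℕ) (s : ℚ), Six s → val μ (2 ^ n * s) = val μ s := by
    intro n
    induction n with
    | zero => intro s _; simp
    | succ n ih =>
      intro s hs
      have e : (2 : ℚ) ^ (n + 1) * s = 2 * (2 ^ n * s) := by ring
      have h6 : Six ((2 : ℚ) ^ n * s) := by
        have := Pool.Agent.W763.Tr.six_two (n : ℤ)
        rw [zpow_natCast] at this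
        exact this.mul hs
      rw [e, val_two h h6, ih s hs]
  obtain ⟨n, rfl | rfl⟩ := a.eq_nat_or_neg
  · rw [zpow_natCast]; exact key n r hr
  · have h6 : Six ((2 : ℚ) ^ (-(n : ℤ)) * r) := (Pool.Agent.W763.Tr.six_two _).mul hr
    have := key n _ h6
    rw [← this, zpow_neg, zpow_natCast]
    congr 1
    field_simp

lemma val_three_zpow {μ : Measure UnitAddCircle} (h : Inv μ) (a : ℤ) {r : ℚ} (hr : Six r) :
    val μ (3 ^ a * r) = val μ r := by
  have key : ∀ (n : ℕ) (s : ℚ), Six s → val μ (3 ^ n * s) = val μ s := by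
    intro n
    induction n with
    | zero => intro s _; simp
    | succ n ih =>
      intro s hs
      have e : (3 : ℚ) ^ (n + 1) * s = 3 * (3 ^ n * s) := by ring
      have h6 : Six ((3 : ℚ) ^ n * s) := by
        have := Pool.Agent.W763.Tr.six_three (n : ℤ)
        rw [zpow_natCast] at this
        exact this.mul hs
      rw [e, val_three h h6, ih s hs]
  obtain ⟨n, rfl | rfl⟩ := a.eq_nat_or_neg
  · rw [zpow_natCast]; exact key n r hr
  · have h6 : Six ((3 : ℚ) ^ (-(n : ℤ)) * r) := (Pool.Agent.W763.Tr.six_three _).mul hr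
    have := key n _ h6
    rw [← this, zpow_neg, zpow_natCast]
    congr 1
    field_simp

lemma val_sl {μ : Measure UnitAddCircle} (h : Inv μ) (g : G) {r : ℚ} (hr : Six r) :
    val μ (sl g * r) = val μ r := by
  obtain ⟨a, b, e⟩ := sl_form g
  rw [e, mul_assoc, val_two_zpow h a ((Pool.Agent.W763.Tr.six_three b).mul hr),
    val_three_zpow h b hr]

open Classical in
/-- the trace of a measure -/
noncomputable def traceOf (μ : Measure UnitAddCircle) (g : G) : ℂ :=
  if sl g = 1 then val μ (of g) else 0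

lemma traceOf_one {μ : Measure UnitAddCircle} [IsProbabilityMeasure μ] (h : Inv μ) :
    traceOf μ 1 = 1 := by
  rw [traceOf, if_pos sl_one, of_one, val_zero h]

lemma traceOf_conj {μ : Measure UnitAddCircle} (h : Inv μ) (g k : G) :
    traceOf μ (k * g * k⁻¹) = traceOf μ g := by
  have h1 : sl (k * g * k⁻¹) = sl g := by
    rw [sl_mul, sl_mul, sl_inv]
    have := (sl_pos k).ne'
    field_simp
  unfold traceOf
  rw [h1]
  by_cases hg : sl g = 1
  · rw [if_pos hg, if_pos hg]
    have h2 : of (k * g * k⁻¹) = sl k * of g := by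
      rw [of_mul, sl_mul, of_mul, of_inv, hg]
      have := (sl_pos k).ne'
      field_simp
      ring
    rw [h2, val_sl h k (of_six g)]
  · rw [if_neg hg, if_neg hg]

lemma traceOf_pd {μ : Measure UnitAddCircle} [IsProbabilityMeasure μ] (h : Inv μ)
    (s : Finset G) (c : G → ℂ) :
    0 ≤ ∑ i ∈ s, ∑ j ∈ s, star (c j) * c i * traceOf μ (j⁻¹ * i) := by
  classical
  -- a common denominator
  have hw : ∀ g : G, Six (of g / sl g) := by
    intro g
    have h1 := of_inv g
    have h2 := (of_six g⁻¹).neg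
    rw [h1, neg_neg] at h2
    exact h2
  obtain ⟨K, n, hn⟩ : ∃ (K : ℕ) (n : G → ℤ), ∀ g ∈ s, of g / sl g = n g / 6 ^ K := by
    choose n k hnk using hw
    refine ⟨∑ g ∈ s, k g, fun g => n g * 6 ^ (∑ x ∈ s.erase g, k x), fun g hg => ?_⟩
    rw [hnk g, ← Finset.add_sum_erase s k hg]
    push_cast
    rw [pow_add]
    field_simp
  have hval : ∀ i ∈ s, ∀ j ∈ s, traceOf μ (j⁻¹ * i) = if sl i = sl j then co μ (n i - n j) else 0 := by
    intro i hi j hj
    have hj0 := (sl_pos j).ne'
    have h1 : sl (j⁻¹ * i) = 1 ↔ sl i = sl j := by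
      rw [sl_mul, sl_inv]
      constructor
      · intro e; field_simp at e; exact e
      · intro e; rw [e]; field_simp
    unfold traceOf
    by_cases e : sl i = sl j
    · rw [if_pos (h1.2 e), if_pos e]
      apply val_eq h (k := K)
      rw [of_mul, sl_inv, of_inv]
      have h2 := hn i hi
      have h3 := hn j hj
      rw [e] at h2
      push_cast
      rw [sub_div, ← h2, ← h3]
      field_simp
      ring
    · rw [if_neg (fun h5 => e (h1.1 h5)), if_neg e]
  -- the integrand
  set z : G → UnitAddCircle → ℂ := fun i x => c i * fourier (n i) x with hz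
  have hzc : ∀ i, Continuous (z i) := fun i => continuous_const.mul (fourier (n i)).continuous
  have hint : ∀ f : UnitAddCircle → ℂ, Continuous f → Integrable f μ := fun f hf =>
    hf.integrable_of_hasCompactSupport (HasCompactSupport.of_compactSpace _)
  have e1 : ∀ i ∈ s, ∀ j ∈ s, star (c j) * c i * traceOf μ (j⁻¹ * i) =
      ∫ x, (if sl i = sl j then star (z j x) * z i x else 0) ∂μ := by
    intro i hi j hj
    rw [hval i hi j hj]
    by_cases e : sl i = sl j
    · simp only [if_pos e]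
      unfold co
      rw [← integral_const_mul]
      refine integral_congr_ae (Eventually.of_forall fun x => ?_)
      simp only [hz]
      rw [sub_eq_add_neg, fourier_add, fourier_neg, star_mul']
      simp only [RCLike.star_def]
      ring
    · simp only [if_neg e, mul_zero, integral_zero]
  have e2 : ∑ i ∈ s, ∑ j ∈ s, star (c j) * c i * traceOf μ (j⁻¹ * i) =
      ∫ x, ∑ i ∈ s, ∑ j ∈ s, (if sl i = sl j then star (z j x) * z i x else 0) ∂μ := by
    rw [integral_finsetSum]
    · refine Finset.sum_congr rfl fun i hi => ?_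
      rw [integral_finsetSum]
      · exact Finset.sum_congr rfl fun j hj => e1 i hi j hj
      · intro j _
        refine hint _ ?_
        split_ifs
        · exact (hzc j).star.mul (hzc i)
        · exact continuous_const
    · intro i _
      refine hint _ (continuous_finsetSum _ fun j _ => ?_)
      split_ifs
      · exact (hzc j).star.mul (hzc i)
      · exact continuous_const
  have e3 : ∀ x, ∑ i ∈ s, ∑ j ∈ s, (if sl i = sl j then star (z j x) * z i x else 0) =
      ((∑ a ∈ s.image sl, ‖∑ i ∈ s with sl i = a, z i x‖ ^ 2 : ℝ) : ℂ) := by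
    intro x
    rw [← Finset.sum_fiberwise_of_maps_to (s := s) (t := s.image sl) (g := sl)
      (fun i hi => Finset.mem_image_of_mem _ hi)]
    push_cast
    refine Finset.sum_congr rfl fun a _ => ?_
    have h5 : ∀ i ∈ s.filter (fun i => sl i = a),
        ∑ j ∈ s, (if sl i = sl j then star (z j x) * z i x else 0) =
          star (∑ j ∈ s with sl j = a, z j x) * z i x := by
      intro i hi
      rw [Finset.mem_filter] at hi
      rw [star_sum, Finset.sum_mul, Finset.sum_filter]
      refine Finset.sum_congr rfl fun j _ => ?_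
      rw [hi.2]
      by_cases e : a = sl j
      · rw [if_pos e, if_pos e.symm]
      · rw [if_neg e, if_neg (fun h => e h.symm)]
    rw [Finset.sum_congr rfl h5, ← Finset.mul_sum]
    have h6 := Complex.conj_mul' (∑ i ∈ s with sl i = a, z i x)
    rw [RCLike.star_def, h6]
  rw [e2]
  simp_rw [e3]
  rw [integral_complex_ofReal]
  rw [Complex.zero_le_real]
  exact integral_nonneg fun x => Finset.sum_nonneg fun a _ => by positivity

theorem traceOf_mem {μ : Measure UnitAddCircle} [IsProbabilityMeasure μ] (h : Inv μ) :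
    traceOf μ ∈ Traces :=
  ⟨traceOf_one h, fun g k => traceOf_conj h g k, traceOf_pd h⟩

/-- The measure of a trace. -/
theorem exists_meas {φ : G → ℂ} (hφ : φ ∈ Traces) : ∃ μ : Measure UnitAddCircle,
    IsProbabilityMeasure μ ∧ Inv μ ∧ (∀ g, sl g = 1 → φ g = traceOf μ g) ∧
    ((∀ x, μ {x} = 0) → φ = traceOf μ) := by
  obtain ⟨h1, hcl, hpd⟩ := hφ
  obtain ⟨τ, S6, μ, D⟩ := data_of (s2 := s2) (s3 := s3) (t := s1) (fun _ => rfl) (fun _ => rfl)
    (fun _ => rfl) (G := G) rfl h1 hcl hpd
  have hi : Inv μ := ⟨D.mp2, D.mp3⟩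
  have ht : ∀ g, sl g = 1 → φ g = traceOf μ g := by
    intro g hg
    obtain ⟨n, k, hr⟩ := of_six g
    rw [traceOf, if_pos hg, val_eq hi hr]
    unfold co
    rw [D.hμ n]
    exact Pool.Agent.W763.Tr.phi_trans D.hτ hcl S6 D.hS6 g n k fun x => by
      rw [gapply, hg, one_mul, hr]
  refine ⟨μ, D.prob, hi, ht, fun hat => ?_⟩
  funext g
  by_cases hg : sl g = 1
  · exact ht g hg
  · rw [traceOf, if_neg hg]
    exact Pool.Agent.R481.TraceBT.vanish D hat g (fun h => hg ((trans_iff g).1 h))

end Pool.Agent.U106.TR
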