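import Pool.Agent.U106.TR.Dict

/-!
The extreme traces of `C*(ℤ² ⋉ ℤ[1/6])` of infinite conditional dimension and the ergodic measures.
-/

set_option autoImplicit false

open MeasureTheory Filter Topology Set
open scoped ComplexOrder

namespace Pool.Agent.U106.TR

open Pool.Agent.U106.FC
open Pool.Agent.W763.Tr (Six form)
open Pool.Agent.TH654.FC (Data data_of)

/-- The regular trace. -/
noncomputable def reg : G → ℂ := Set.indicator ({1} : Set G) (fun _ => (1 : ℂ))

/-- `φ` is conditionally finite-dimensional: the translates of `φ` by the translations in `G` span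
a finite-dimensional space. -/
def FinDim (φ : G → ℂ) : Prop :=
  FiniteDimensional ℂ (Submodule.span ℂ {F : G → ℂ | ∃ n : G, Trans n ∧ F = fun x => φ (n * x)})

/-- `φ` is an exceptional trace: an extreme trace which is not the regular trace and not
conditionally finite-dimensional. -/
def Exc (φ : G → ℂ) : Prop := φ ∈ Set.extremePoints ℝ Traces ∧ φ ≠ reg ∧ ¬ FinDim φ

/-- The measure of a trace, with more properties. -/
theorem exists_meas' {φ : G → ℂ} (hφ : φ ∈ Traces) : ∃ μ : Measure UnitAddCircle,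
    IsProbabilityMeasure μ ∧ Inv μ ∧ (∀ g, sl g = 1 → φ g = traceOf μ g) ∧
    ((∀ x, μ {x} = 0) → φ = traceOf μ) ∧
    (FinDim φ → ∃ M : ℕ, 1 ≤ M ∧ ∀ n : ℤ, co μ (M * n) = 1) ∧
    (φ ∈ Set.extremePoints ℝ Traces → FinDim φ ∨ ∀ x, μ {x} = 0) := by
  obtain ⟨h1, hcl, hpd⟩ := hφ
  obtain ⟨τ, S6, μ, D⟩ := data_of (s2 := s2) (s3 := s3) (t := s1) (fun _ => rfl) (fun _ => rfl)
    (fun _ => rfl) (G := G) rfl h1 hcl hpd
  have hi : Inv μ := ⟨D.mp2, D.mp3⟩
  have hprob := D.prob
  have ht : ∀ g, sl g = 1 → φ g = traceOf μ g := by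
    intro g hg
    obtain ⟨n, k, hr⟩ := of_six g
    rw [traceOf, if_pos hg, val_eq hi hr]
    unfold co
    rw [D.hμ n]
    exact Pool.Agent.W763.Tr.phi_trans D.hτ hcl S6 D.hS6 g n k fun x => by
      rw [gapply, hg, one_mul, hr]
  refine ⟨μ, D.prob, hi, ht, fun hat => ?_, fun hfin => ?_, fun hext => ?_⟩
  · funext g
    by_cases hg : sl g = 1
    · exact ht g hg
    · rw [traceOf, if_neg hg]
      exact Pool.Agent.R481.TraceBT.vanish D hat g (fun h => hg ((trans_iff g).1 h))
  · obtain ⟨M, hM1, hM⟩ := Pool.Agent.W763.Tr.exists_kernel D.hτ D.hμ D.h2 hfin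
    refine ⟨M, hM1, fun n => ?_⟩
    unfold co
    rw [D.hμ]
    exact hM n
  · exact Pool.Agent.TH463.UQ.finite_or_atomless D hext

/-- the coefficients are values of the trace -/
lemma exists_elt (n : ℤ) : ∃ g : G, sl g = 1 ∧ of g = n := by
  have m1 : s1 ∈ G := Subgroup.subset_closure (by simp)
  let T : G := ⟨s1, m1⟩
  have hT : sl T = 1 ∧ of T = 1 := by
    constructor
    · change ((1 : ℚ) + 1) - (0 + 1) = 1; norm_num
    · change (0 : ℚ) + 1 = 1; norm_num
  refine ⟨T ^ n, ?_⟩
  have key : ∀ k : ℕ, sl (T ^ k) = 1 ∧ of (T ^ k) = k := by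
    intro k
    induction k with
    | zero => simp [sl_one, of_one]
    | succ k ih =>
      rw [pow_succ, sl_mul, of_mul, hT.1, hT.2, ih.1, ih.2]
      constructor
      · norm_num
      · push_cast; ring
  obtain ⟨k, rfl | rfl⟩ := n.eq_nat_or_neg
  · rw [zpow_natCast]
    refine ⟨(key k).1, ?_⟩
    rw [(key k).2]; simp
  · rw [zpow_neg, zpow_natCast, sl_inv, of_inv, (key k).1, (key k).2]
    constructor
    · norm_num
    · push_cast; ring

lemma co_eq {μ : Measure UnitAddCircle} (h : Inv μ) {g : G} {n : ℤ} (h1 : sl g = 1)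
    (h2 : of g = n) : traceOf μ g = co μ n := by
  rw [traceOf, if_pos h1, val_eq h (n := n) (k := 0) (by rw [h2]; simp)]

theorem traceOf_inj {μ ν : Measure UnitAddCircle} [IsProbabilityMeasure μ]
    [IsProbabilityMeasure ν] (hμ : Inv μ) (hν : Inv ν) (h : traceOf μ = traceOf ν) : μ = ν := by
  refine Pool.Agent.R202.ext_fourier fun n => ?_
  obtain ⟨g, h1, h2⟩ := exists_elt n
  have h3 := congrFun h g
  rw [co_eq hμ h1 h2, co_eq hν h1 h2] at h3
  exact h3

theorem not_finDim {μ : Measure UnitAddCircle} [IsProbabilityMeasure μ] (h : Inv μ)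
    (hat : ∀ x, μ {x} = 0) : ¬ FinDim (traceOf μ) := by
  intro hfin
  obtain ⟨ν, hν, hi, ht, -, hk, -⟩ := exists_meas' (traceOf_mem h)
  have e : μ = ν := by
    refine Pool.Agent.R202.ext_fourier fun n => ?_
    obtain ⟨g, h1, h2⟩ := exists_elt n
    have h3 := ht g h1
    rw [co_eq h h1 h2, co_eq hi h1 h2] at h3
    exact h3
  subst e
  obtain ⟨M, hM1, hM⟩ := hk hfin
  have hp : IsProbabilityMeasure (μ.map (mul M)) :=
    Measure.isProbabilityMeasure_map (cont_mul M).measurable.aemeasurable
  have h1 := wiener_atomless (atomless_map hM1 hat)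
  have h2 : Tendsto (fun N : ℕ => (N : ℝ)⁻¹ * ∑ k ∈ Finset.range N, ‖co (μ.map (mul M)) k‖ ^ 2)
      atTop (𝓝 1) := by
    refine tendsto_const_nhds.congr' ?_
    filter_upwards [eventually_gt_atTop 0] with N hN
    have h3 : ∀ k ∈ Finset.range N, ‖co (μ.map (mul M)) (k : ℤ)‖ ^ 2 = 1 := by
      intro k _
      rw [co_map, mul_comm, hM]
      simp
    rw [Finset.sum_congr rfl h3]
    simp only [Finset.sum_const, Finset.card_range, nsmul_eq_mul, mul_one]
    field_simp
  exact zero_ne_one (tendsto_nhds_unique h1 h2)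

/-- an ergodic measure is extreme -/
theorem eq_of_le {μ κ : Measure UnitAddCircle} (h : Exceptional 2 3 μ) [IsProbabilityMeasure κ]
    (hκ : Inv κ) (hac : κ ≪ μ) : κ = μ := by
  have hprob := h.1
  refine Pool.Agent.R202.ext_fourier fun k => ?_
  obtain ⟨n, hn, hlim⟩ := subseq_const h k tendsto_id
  have hlim' : ∀ᵐ x ∂κ, Tendsto (fun j => cav (cm 2) (cm 3) (id (n j)) (fourier k) x) atTop
      (𝓝 (co μ k)) := hac.ae_le hlim
  have h1 : Tendsto (fun j => ∫ x, cav (cm 2) (cm 3) (id (n j)) (fourier k) x ∂κ) atTop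
      (𝓝 (∫ _x, co μ k ∂κ)) := by
    refine tendsto_integral_of_dominated_convergence (fun _ => (1 : ℝ)) (fun j => ?_)
      (integrable_const _) (fun j => ?_) hlim'
    · exact (ContinuousMap.continuous _).aestronglyMeasurable
    · exact Eventually.of_forall fun x => cav_bound _ _ _ (fun y => (norm_fourier k y).le) x
  have h2 : ∀ᶠ j in atTop, ∫ x, cav (cm 2) (cm 3) (id (n j)) (fourier k) x ∂κ = co κ k := by
    filter_upwards [eventually_ge_atTop 1] with j hj
    have hj1 : 1 ≤ n j := le_trans hj (hn.id_le j)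
    have := cav_integral (S := cm 2) (T := cm 3) (ν := κ) hκ.1 hκ.2 MeasurableSet.univ rfl rfl
      (n := id (n j)) hj1 (fourier k)
    rw [Measure.restrict_univ] at this
    exact this
  have h3 := tendsto_nhds_unique (tendsto_const_nhds.congr' (h2.mono fun _ h => h.symm)) h1
  rw [integral_const] at h3
  change co κ k = co μ k
  simpa using h3

theorem exc_traceOf {μ : Measure UnitAddCircle} (h : Exceptional 2 3 μ) : Exc (traceOf μ) := by
  have hprob := h.1
  have hi : Inv μ := ⟨h.2.2.1, h.2.2.2.1⟩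
  refine ⟨?_, ?_, not_finDim hi h.2.1⟩
  · rw [mem_extremePoints]
    refine ⟨traceOf_mem hi, ?_⟩
    have key : ∀ x₁ ∈ Traces, ∀ x₂ ∈ Traces, ∀ a b : ℝ, 0 < a → 0 < b → a + b = 1 →
        a • x₁ + b • x₂ = traceOf μ → x₁ = traceOf μ := by
      intro x₁ h1 x₂ h2 a b ha hb hab he
      obtain ⟨μ₁, hp1, hi1, ht1, hv1, -, -⟩ := exists_meas' h1
      obtain ⟨μ₂, hp2, hi2, ht2, -, -, -⟩ := exists_meas' h2
      have hfa : IsFiniteMeasure (ENNReal.ofReal a • μ₁) := μ₁.smul_finite ENNReal.ofReal_ne_top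
      have hfb : IsFiniteMeasure (ENNReal.ofReal b • μ₂) := μ₂.smul_finite ENNReal.ofReal_ne_top
      have hsum : ENNReal.ofReal a • μ₁ + ENNReal.ofReal b • μ₂ = μ := by
        refine Pool.Agent.R202.ext_fourier fun n => ?_
        obtain ⟨g, hg1, hg2⟩ := exists_elt n
        have h3 := congrFun he g
        rw [Pi.add_apply, Pi.smul_apply, Pi.smul_apply, ht1 g hg1, ht2 g hg1, co_eq hi1 hg1 hg2,
          co_eq hi2 hg1 hg2, co_eq hi hg1 hg2] at h3
        have hint : ∀ (ν : Measure UnitAddCircle) [IsProbabilityMeasure ν],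
            Integrable (fun x => (fourier n x : ℂ)) ν := fun ν _ =>
          (fourier n).continuous.integrable_of_hasCompactSupport
            (HasCompactSupport.of_compactSpace _)
        rw [integral_add_measure ((hint μ₁).smul_measure ENNReal.ofReal_ne_top)
          ((hint μ₂).smul_measure ENNReal.ofReal_ne_top), integral_smul_measure,
          integral_smul_measure, ENNReal.toReal_ofReal ha.le, ENNReal.toReal_ofReal hb.le]
        exact h3
      have hac : μ₁ ≪ μ := by
        intro A hA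
        rw [← hsum, Measure.add_apply, Measure.smul_apply] at hA
        have h4 := (add_eq_zero.1 hA).1
        rw [smul_eq_mul, mul_eq_zero] at h4
        rcases h4 with h4 | h4
        · exact absurd h4 (by simpa using ha)
        · exact h4
      have e := eq_of_le h hi1 hac
      subst e
      exact hv1 h.2.1
    intro x₁ h1 x₂ h2 hseg
    obtain ⟨a, b, ha, hb, hab, he⟩ := hseg
    refine ⟨key x₁ h1 x₂ h2 a b ha hb hab he, key x₂ h2 x₁ h1 b a hb ha (by linarith) ?_⟩
    rw [add_comm]; exact he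
  · intro he
    apply h.2.2.2.2.2
    refine Pool.Agent.R202.ext_fourier fun n => ?_
    obtain ⟨g, hg1, hg2⟩ := exists_elt n
    have h3 := congrFun he g
    rw [co_eq hi hg1 hg2] at h3
    change co μ n = co volume n
    rw [h3]
    by_cases hn : n = 0
    · subst hn
      have : g = 1 := ext' (by rw [hg1, sl_one]) (by rw [hg2, of_one]; simp)
      rw [this, reg, Set.indicator_of_mem (by simp)]
      simp [co]
    · have : g ≠ 1 := by
        rintro rfl
        rw [of_one] at hg2
        exact hn (by exact_mod_cast hg2.symm)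
      rw [reg, Set.indicator_of_notMem (by simpa using this), co_vol hn]

theorem exc_meas {φ : G → ℂ} (h : Exc φ) :
    ∃ μ : Measure UnitAddCircle, Exceptional 2 3 μ ∧ φ = traceOf μ := by
  obtain ⟨hext, hne, hfin⟩ := h
  obtain ⟨μ, hp, hi, ht, hv, -, hx⟩ := exists_meas' hext.1
  have hat : ∀ x, μ {x} = 0 := (hx hext).resolve_left hfin
  have hφ := hv hat
  refine ⟨μ, ⟨hp, hat, hi.1, hi.2, ?_, ?_⟩, hφ⟩
  · intro E hE h2 h3
    by_contra hcon
    push Not at hcon
    obtain ⟨h0, h1⟩ := hcon
    have hc0 : μ Eᶜ ≠ 0 := by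
      intro h; apply h1
      rwa [prob_compl_eq_zero_iff hE] at h
    have main : ∀ F : Set UnitAddCircle, MeasurableSet F → (mul 2) ⁻¹' F = F →
        (mul 3) ⁻¹' F = F → μ F ≠ 0 → IsProbabilityMeasure ((μ F)⁻¹ • μ.restrict F) ∧
          Inv ((μ F)⁻¹ • μ.restrict F) := by
      intro F hF hF2 hF3 hF0
      refine ⟨⟨?_⟩, ?_, ?_⟩
      · rw [Measure.smul_apply, Measure.restrict_apply_univ, smul_eq_mul]
        exact ENNReal.inv_mul_cancel hF0 (measure_ne_top _ _)
      · have := (hi.1.restrict_preimage hF)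
        rw [hF2] at this
        exact normalize_mp this _
      · have := (hi.2.restrict_preimage hF)
        rw [hF3] at this
        exact normalize_mp this _
    obtain ⟨p1, i1⟩ := main E hE h2 h3 h0
    obtain ⟨p2, i2⟩ := main Eᶜ hE.compl (by rw [preimage_compl, h2]) (by rw [preimage_compl, h3]) hc0
    set μ₁ := (μ E)⁻¹ • μ.restrict E with hμ₁
    set μ₂ := (μ Eᶜ)⁻¹ • μ.restrict Eᶜ with hμ₂
    have hco : ∀ n : ℤ, co μ n = (μ E).toReal * co μ₁ n + (μ Eᶜ).toReal * co μ₂ n := by
      intro n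
      unfold co
      rw [hμ₁, hμ₂, integral_smul_measure, integral_smul_measure, ENNReal.toReal_inv,
        ENNReal.toReal_inv, Complex.real_smul, Complex.real_smul, ← mul_assoc, ← mul_assoc]
      have e0 : (μ E).toReal ≠ 0 := ENNReal.toReal_ne_zero.2 ⟨h0, measure_ne_top _ _⟩
      have ec : (μ Eᶜ).toReal ≠ 0 := ENNReal.toReal_ne_zero.2 ⟨hc0, measure_ne_top _ _⟩
      push_cast
      rw [mul_inv_cancel₀ (by exact_mod_cast e0), mul_inv_cancel₀ (by exact_mod_cast ec), one_mul,
        one_mul]
      have hint : Integrable (fun x => (fourier n x : ℂ)) μ :=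
          (fourier n).continuous.integrable_of_hasCompactSupport
            (HasCompactSupport.of_compactSpace _)
      exact (integral_add_compl hE hint).symm
    have hsum1 : (μ E).toReal + (μ Eᶜ).toReal = 1 := by
      have := prob_add_prob_compl (μ := μ) hE
      rw [← ENNReal.toReal_add (measure_ne_top _ _) (measure_ne_top _ _), this, ENNReal.toReal_one]
    have hseg : φ ∈ openSegment ℝ (traceOf μ₁) (traceOf μ₂) := by
      refine ⟨(μ E).toReal, (μ Eᶜ).toReal, ENNReal.toReal_pos h0 (measure_ne_top _ _),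
        ENNReal.toReal_pos hc0 (measure_ne_top _ _), hsum1, ?_⟩
      rw [hφ]
      funext g
      rw [Pi.add_apply, Pi.smul_apply, Pi.smul_apply]
      by_cases hg : sl g = 1
      · obtain ⟨n, k, hr⟩ := of_six g
        unfold traceOf
        rw [if_pos hg, if_pos hg, if_pos hg, val_eq i1 hr, val_eq i2 hr, val_eq hi hr, hco n,
          Complex.real_smul, Complex.real_smul]
      · unfold traceOf
        rw [if_neg hg, if_neg hg, if_neg hg]
        simp
    have h5 := ((mem_extremePoints.1 hext).2 _ (traceOf_mem i1) _ (traceOf_mem i2) hseg).1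
    have h6 : μ₁ = μ := traceOf_inj i1 hi (by rw [h5, hφ])
    apply hc0
    rw [← h6, hμ₁, Measure.smul_apply, Measure.restrict_apply hE.compl]
    simp
  · intro hvol
    apply hne
    rw [hφ]
    funext g
    by_cases hg1 : g = 1
    · rw [hg1, traceOf_one hi, reg, Set.indicator_of_mem (by simp)]
    · rw [reg, Set.indicator_of_notMem (by simpa using hg1)]
      by_cases hg : sl g = 1
      · obtain ⟨n, k, hr⟩ := of_six g
        rw [traceOf, if_pos hg, val_eq hi hr, hvol]
        apply co_vol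
        rintro rfl
        apply hg1
        exact ext' (by rw [hg, sl_one]) (by rw [hr, of_one]; simp)
      · rw [traceOf, if_neg hg]

end Pool.Agent.U106.TR
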