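import Pool.Agent.TH463.UQ.Trace

/-!
A variant of the lemma `kernel'` of the starting file `TH463.UQ.Trace` (with its proof): the kernel of
an extreme trace whose measure charges the points of order `N` contains the translations by `N n`.
-/

set_option autoImplicit false

open MeasureTheory Filter Topology
open scoped ComplexOrder

namespace Pool.Agent.U106.TR

open Pool.Agent.W763.Tr
open Pool.Agent.TH654.FC

variable {G : Subgroup (Equiv.Perm ℚ)} {τ : ℤ → G} {φ : G → ℂ} {S6 : G} {μ : Measure UnitAddCircle}

theorem kernel_at (D : Data G τ φ S6 μ)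
    (hext : φ ∈ Set.extremePoints ℝ {ψ : G → ℂ | ψ 1 = 1 ∧ (∀ g h : G, ψ (h * g * h⁻¹) = ψ g) ∧
        ∀ (s : Finset G) (c : G → ℂ), 0 ≤ ∑ i ∈ s, ∑ j ∈ s, star (c j) * c i * ψ (j⁻¹ * i)})
    {N : ℕ} (hN : μ {x : UnitAddCircle | N • x = 0} ≠ 0) :
    ∀ n : ℤ, φ (τ (N * n)) = 1 := by
  have := D.prob
  set lam : ℝ := μ.real {x : UnitAddCircle | N • x = 0} with hlam
  have hpos : 0 < lam := by
    rw [hlam, Measure.real, ENNReal.toReal_pos_iff]
    exact ⟨pos_iff_ne_zero.mpr hN, measure_lt_top _ _⟩
  have hm : MeasurableSet {x : UnitAddCircle | N • x = 0} :=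
    (isClosed_eq (by fun_prop) continuous_const).measurableSet
  have hnorm := D.normal N
  have key := extreme_kernel φ hext (transl G N) lam hpos (by
    intro ι t w b hb hw0 hw1
    -- common denominator
    have hch : ∀ i : ι, ∃ (n : ℤ) (k : ℕ), i ∈ t → ∀ x, (b i : Equiv.Perm ℚ) x = x + N * (n / 6 ^ k) := by
      intro i
      by_cases hi : i ∈ t
      · obtain ⟨r, ⟨n, k, rfl⟩, h⟩ := hb i hi
        exact ⟨n, k, fun _ => h⟩
      · exact ⟨0, 0, fun h => absurd h hi⟩
    choose n0 k0 hn0 using hch
    set K := t.sup k0 with hK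
    set n : ι → ℤ := fun i => n0 i * 6 ^ (K - k0 i) with hn
    have hbt : ∀ i ∈ t, ∀ x, (b i : Equiv.Perm ℚ) x = x + N * (n i / 6 ^ K) := by
      intro i hi x
      rw [hn0 i hi x, hn]
      have hle : k0 i ≤ K := Finset.le_sup hi
      have e : (6 : ℚ) ^ K = 6 ^ (K - k0 i) * 6 ^ k0 i := by rw [← pow_add]; congr 1; omega
      have h6 : (6 : ℚ) ^ (K - k0 i) ≠ 0 := by positivity
      have h6' : (6 : ℚ) ^ (k0 i) ≠ 0 := by positivity
      push_cast
      rw [e]
      field_simp
    have hval : ∀ i ∈ t, ∀ j ∈ t, φ ((b j)⁻¹ * b i) = ∫ x, fourier (N * (n i - n j)) x ∂μ := by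
      intro i hi j hj
      rw [D.hμ]
      refine phi_trans D.hτ D.hcl S6 D.hS6 _ _ K fun x => ?_
      rw [Subgroup.coe_mul, Equiv.Perm.mul_apply, Subgroup.coe_inv, Equiv.Perm.inv_eq_iff_eq,
        hbt i hi, hbt j hj]
      push_cast
      field_simp
      ring
    set F : UnitAddCircle → ℂ := fun x => ∑ i ∈ t, (w i : ℂ) * fourier (N * n i) x with hF
    have hFc : Continuous F := by rw [hF]; fun_prop
    have hsq : ∀ x, ((‖F x‖ ^ 2 : ℝ) : ℂ) =
        ∑ i ∈ t, ∑ j ∈ t, (w j : ℂ) * w i * fourier (N * (n i - n j)) x := by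
      intro x
      have e1 : ((‖F x‖ ^ 2 : ℝ) : ℂ) = F x * starRingEnd ℂ (F x) := by
        rw [Complex.mul_conj, Complex.normSq_eq_norm_sq]
      rw [e1, hF]
      simp only
      rw [map_sum, Finset.sum_mul]
      refine Finset.sum_congr rfl fun i _ => ?_
      rw [Finset.mul_sum]
      refine Finset.sum_congr rfl fun j _ => ?_
      rw [map_mul, Complex.conj_ofReal, ← fourier_neg]
      have e2 : fourier (N * (n i - n j)) x = fourier (N * n i) x * fourier (-(N * n j)) x := by
        rw [← fourier_add]; congr 1; ring_nf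
      rw [e2]; ring
    have hsum : ∑ i ∈ t, ∑ j ∈ t, (w j : ℂ) * w i * φ ((b j)⁻¹ * b i) =
        ∫ x, ((‖F x‖ ^ 2 : ℝ) : ℂ) ∂μ := by
      simp only [hsq]
      have hi : ∀ m : ℤ, Integrable (fun x : UnitAddCircle => (fourier m x : ℂ)) μ := fun m =>
        (by fun_prop : Continuous (fun x : UnitAddCircle =>
          (fourier m x : ℂ))).integrable_of_hasCompactSupport (HasCompactSupport.of_compactSpace _)
      rw [integral_finsetSum]
      · refine Finset.sum_congr rfl fun i hi' => ?_
        rw [integral_finsetSum]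
        · refine Finset.sum_congr rfl fun j hj' => ?_
          rw [integral_const_mul, hval i hi' j hj']
        · intro j _
          exact (hi _).const_mul _
      · intro i _
        exact integrable_finsetSum _ fun j _ => (hi _).const_mul _
    rw [hsum, integral_complex_ofReal, Complex.ofReal_re, hlam]
    have hint : Integrable (fun x => ‖F x‖ ^ 2) μ :=
      Pool.Agent.H261R2.FU.int_sq_cont (by fun_prop)
    calc μ.real {x : UnitAddCircle | N • x = 0}
        = ∫ x, ({x : UnitAddCircle | N • x = 0}.indicator (fun _ => (1 : ℝ))) x ∂μ := by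
          rw [integral_indicator hm]; simp [Measure.real]
      _ ≤ ∫ x, ‖F x‖ ^ 2 ∂μ := by
          apply integral_mono ((integrable_const (1 : ℝ)).indicator hm) hint
          intro x
          by_cases hx : x ∈ {x : UnitAddCircle | N • x = 0}
          · rw [Set.indicator_of_mem hx]
            have h7 : F x = 1 := by
              rw [hF]
              simp only
              have h8 : ∀ i, fourier (N * n i) x = (1 : ℂ) := by
                intro i
                rw [fourier_eq_one, mul_comm, mul_smul, natCast_zsmul,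
                  show N • x = 0 from hx, smul_zero]
                simp
              simp only [h8, mul_one]
              have := congrArg (fun r : ℝ => (r : ℂ)) hw1
              simpa using this
            simp only [h7, norm_one, one_pow]
            exact le_rfl
          · rw [Set.indicator_of_notMem hx]; positivity)
  refine fun n => key _ ⟨n, ⟨n, 0, by simp⟩, fun x => ?_⟩
  rw [D.hτ]; push_cast; ring


end Pool.Agent.U106.TR
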