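import Pool.Agent.U106.TR.LevTwo
import Pool.Agent.U106.TR.Amp
import Pool.Agent.U106.TR.Kernel
import Pool.Agent.TH461.FGK.Tr

/-!
The gap at the trivial character in terms of the traces of `C*(ℤ² ⋉ ℤ[1/6])`.
-/

set_option autoImplicit false

open MeasureTheory Filter Topology Set
open scoped ComplexOrder

namespace Pool.Agent.U106.TR

open Pool.Agent.U106.FC
open RC (Gap far_mass gap_atom)
open Pool.Agent.R203.ID (hat Lev nfold)
open Pool.Agent.TH654.FC (Data data_of)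

/-- there is a gap for `2`, `3` -/
def HasGap : Prop := ∃ c : ℝ, 0 < c ∧ Gap 2 3 c

lemma co_re_neg (μ : Measure UnitAddCircle) (n : ℤ) : (co μ (-n)).re = (co μ n).re := by
  have : co μ (-n) = (starRingEnd ℂ) (co μ n) := by
    unfold co
    rw [← integral_conj]
    refine integral_congr_ae (Eventually.of_forall fun x => ?_)
    simp only
    rw [fourier_neg]
  rw [this, Complex.conj_re]

lemma co_re_abs (μ : Measure UnitAddCircle) (n : ℤ) :
    (co μ (n.natAbs : ℤ)).re = (co μ n).re := by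
  rcases Int.natAbs_eq n with h | h
  · rw [← h]
  · conv_rhs => rw [h]
    rw [co_re_neg]

/-- a small coefficient -/
lemma exists_small_co {ν : Measure UnitAddCircle} [IsProbabilityMeasure ν] (h : ∀ x, ν {x} = 0) :
    ∃ k : ℕ, 1 ≤ k ∧ ‖co ν k‖ < 1 / 2 := by
  obtain ⟨m, hm, h1⟩ := exists_small h 1 (ε := 1 / 2) (by norm_num)
  exact ⟨m, hm, by simpa using h1 1 le_rfl le_rfl⟩

lemma co_ne_one {κ : Measure UnitAddCircle} [IsProbabilityMeasure κ] (h : ∀ x, κ {x} = 0) :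
    co κ 1 ≠ 1 := by
  intro h1
  have h2 : ∀ k : ℕ, κ {x : UnitAddCircle | 1 / ((k : ℝ) + 1) ≤ ‖x‖} = 0 := by
    intro k
    have h3 := far_mass κ (r := 1 / ((k : ℝ) + 1)) (by positivity)
    have e : (hat κ 1).re = 1 := by
      change (co κ 1).re = 1
      rw [h1]; rfl
    rw [e, sub_self, zero_div] at h3
    have h4 : κ.real {x : UnitAddCircle | 1 / ((k : ℝ) + 1) ≤ ‖x‖} = 0 :=
      le_antisymm h3 measureReal_nonneg
    rwa [measureReal_eq_zero_iff] at h4
  have h3 : κ ({0}ᶜ : Set UnitAddCircle) = 0 := by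
    have h4 : ({0}ᶜ : Set UnitAddCircle) ⊆ ⋃ k : ℕ, {x : UnitAddCircle | 1 / ((k : ℝ) + 1) ≤ ‖x‖} := by
      intro x hx
      have hx0 : 0 < ‖x‖ := norm_pos_iff.2 hx
      obtain ⟨k, hk⟩ := exists_nat_one_div_lt hx0
      exact mem_iUnion.2 ⟨k, hk.le⟩
    exact measure_mono_null h4 (measure_iUnion_null h2)
  have h4 := prob_add_prob_compl (μ := κ) (measurableSet_singleton (0 : UnitAddCircle))
  rw [h 0, h3] at h4
  simp at h4

/-- An ergodic component with a large coefficient. -/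
theorem exists_erg {ν : Measure UnitAddCircle} [IsProbabilityMeasure ν] (hi : Inv ν)
    (hat : ∀ x, ν {x} = 0) {r : ℝ} (hr : r < (co ν 1).re) :
    ∃ κ : Measure UnitAddCircle, IsProbabilityMeasure κ ∧ (∀ x, κ {x} = 0) ∧ Inv κ ∧
      (∀ E : Set UnitAddCircle, MeasurableSet E → mul 2 ⁻¹' E = E → mul 3 ⁻¹' E = E →
        κ E = 0 ∨ κ E = 1) ∧ r < (co κ 1).re := by
  have hS : MeasurePreserving (cm 2) ν ν := hi.1
  have hT : MeasurePreserving (cm 3) ν ν := hi.2
  have h1 := co_comp hS hT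
  have h2 := comp_inv hS hT
  have h3 := comp_ergodic hS hT
  have h4 := comp_atomless hS hT le_rfl hat
  by_contra hcon
  push Not at hcon
  have h5 : ∀ᵐ x ∂ν, (phi hS hT 1 x).re ≤ r := by
    filter_upwards [h1, h2, h3, h4] with x k1 k2 k3 k4
    have := hcon (comp hS hT x) inferInstance k4 ⟨k2.1, k2.2⟩ (fun E hE e2 e3 => k3 E hE e2 e3)
    rwa [k1] at this
  have hint : Integrable (phi hS hT 1) ν :=
    (Lp.memLp (proj hS hT (cl ν (fourier 1)))).integrable one_le_two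
  have h6 : ∫ x, phi hS hT 1 x ∂ν = co ν 1 := by
    have := setIntegral_phi hS hT 1 (A := univ) MeasurableSet.univ
    rw [Measure.restrict_univ] at this
    exact this
  have h7 : (co ν 1).re = ∫ x, (phi hS hT 1 x).re ∂ν := by
    rw [← h6]
    exact (integral_re (𝕜 := ℂ) hint).symm
  have h8 : ∫ x, (phi hS hT 1 x).re ∂ν ≤ ∫ _x, r ∂ν :=
    integral_mono_ae hint.re (integrable_const _) h5
  rw [integral_const, probReal_univ, one_smul] at h8
  linarith

/-- the semigroup attached to the absence of a gap -/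
theorem exists_semigroup (h : ¬ HasGap) : ∃ z : ℤ → ℂ, ∀ t : ℝ, 0 < t →
    ∃ ν : Measure UnitAddCircle, IsProbabilityMeasure ν ∧ (∀ x, ν {x} = 0) ∧ Inv ν ∧
      ν ≠ volume ∧ ∀ m : ℤ, co ν m = Complex.exp (-(t * z m)) := by
  obtain ⟨L, hL, h1, h2, hinf, a, ha, hat'⟩ := exists_lev le_rfl h
  refine ⟨fun m => ∫ x, (1 - (fourier m x : ℂ)) ∂L, fun t ht => ?_⟩
  obtain ⟨ν, k1, k2, k3, k4, k5, k6⟩ := exists_nu hL h1 h2 hinf ha hat' ht
  exact ⟨ν, k1, k2, ⟨k3, k4⟩, k5, k6⟩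

/-- ... close to the trivial character -/
theorem exists_near (h : ¬ HasGap) {ε : ℝ} (hε : 0 < ε) :
    ∃ ν : Measure UnitAddCircle, IsProbabilityMeasure ν ∧ (∀ x, ν {x} = 0) ∧ Inv ν ∧
      ν ≠ volume ∧ 1 - (co ν 1).re < ε := by
  obtain ⟨z, hz⟩ := exists_semigroup h
  have h1 : Tendsto (fun t : ℝ => 1 - (Complex.exp (-((t : ℂ) * z 1))).re) (𝓝[>] 0) (𝓝 0) := by
    have hc : Continuous fun t : ℝ => 1 - (Complex.exp (-((t : ℂ) * z 1))).re := by fun_prop
    have h2 := (hc.tendsto 0).mono_left (nhdsWithin_le_nhds (s := Ioi (0 : ℝ)))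
    simpa using h2
  obtain ⟨t, ht, ht0⟩ := ((h1.eventually (gt_mem_nhds hε)).and self_mem_nhdsWithin).exists
  obtain ⟨ν, k1, k2, k3, k4, k5⟩ := hz t ht0
  refine ⟨ν, k1, k2, k3, k4, ?_⟩
  rw [k5]
  exact ht

theorem gap_of_extreme {c : ℝ} (hc : 0 < c) (h : ∀ φ ∈ Set.extremePoints ℝ Traces, ∀ g : G,
    Trans g → φ g = 1 ∨ (φ g).re ≤ 1 - c) : HasGap := by
  by_contra hcon
  set c' := min c 1 with hc'
  have hc'0 : 0 < c' := lt_min hc one_pos
  obtain ⟨ν, k1, k2, k3, k4, k5⟩ := exists_near hcon hc'0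
  obtain ⟨κ, l1, l2, l3, l4, l5⟩ := exists_erg k3 k2 (r := 1 - c') (by linarith)
  have hc1 : c' ≤ 1 := min_le_right _ _
  have hvol : κ ≠ volume := by
    intro e
    rw [e, co_vol one_ne_zero] at l5
    simp only [Complex.zero_re] at l5
    linarith
  have hex : Exceptional 2 3 κ := ⟨l1, l2, l3.1, l3.2, l4, hvol⟩
  obtain ⟨g, h1, h2⟩ := exists_elt 1
  have h3 := h _ (exc_traceOf hex).1 g ((trans_iff g).2 h1)
  rw [co_eq l3 h1 h2] at h3
  rcases h3 with h3 | h3
  · exact co_ne_one l2 h3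
  · have : c' ≤ c := min_le_left _ _
    linarith

lemma map_gap {c : ℝ} (hG : Gap 2 3 c) {μ : Measure UnitAddCircle} [IsProbabilityMeasure μ]
    (hi : Inv μ) {N : ℕ} (h0 : μ {x : UnitAddCircle | N • x = 0} = 0) :
    (co μ (N : ℤ)).re ≤ 1 - c := by
  have hp : IsProbabilityMeasure (μ.map (mul N)) :=
    Measure.isProbabilityMeasure_map (cont_mul N).measurable.aemeasurable
  have hi' := inv_map hi N
  have h1 := hG (μ.map (mul N)) hp hi'.1 hi'.2 (by
    rw [Measure.map_apply (cont_mul N).measurable (measurableSet_singleton 0)]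
    exact h0)
  have h2 : hat (μ.map (mul N)) 1 = co μ N := by
    change co (μ.map (mul N)) 1 = _
    rw [co_map, one_mul]
  rwa [h2] at h1

theorem extreme_of_gap {c : ℝ} (hG : Gap 2 3 c) {φ : G → ℂ}
    (hφ : φ ∈ Set.extremePoints ℝ Traces) {g : G} (hg : Trans g) :
    φ g = 1 ∨ (φ g).re ≤ 1 - c := by
  obtain ⟨h1, hcl, hpd⟩ := hφ.1
  obtain ⟨τ, S6, μ, D⟩ := data_of (s2 := s2) (s3 := s3) (t := s1) (fun _ => rfl) (fun _ => rfl)
    (fun _ => rfl) (G := G) rfl h1 hcl hpd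
  have hprob := D.prob
  have hi : Inv μ := ⟨D.mp2, D.mp3⟩
  have hg1 := (trans_iff g).1 hg
  obtain ⟨n, k, hr⟩ := of_six g
  have hval : φ g = φ (τ n) :=
    Pool.Agent.W763.Tr.phi_trans D.hτ hcl S6 D.hS6 g n k fun x => by
      rw [gapply, hg1, one_mul, hr]
  have hco : φ (τ n) = co μ n := (D.hμ n).symm
  rw [hval]
  by_cases h0 : μ {x : UnitAddCircle | n.natAbs • x = 0} = 0
  · right
    rw [hco, ← co_re_abs]
    exact map_gap hG hi h0
  · left
    have h5 := kernel_at D hφ h0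
    rcases Int.natAbs_eq n with h6 | h6
    · have := h5 1
      rwa [mul_one, ← h6] at this
    · have := h5 (-1)
      have e : ((n.natAbs : ℤ) * (-1)) = n := by omega
      rwa [e] at this

/-- the value at a power of a translation -/
lemma trans_pow {g : G} (hg : Trans g) (k : ℕ) : Trans (g ^ k) ∧ of (g ^ k) = k * of g := by
  have h1 := (trans_iff g).1 hg
  have key : sl (g ^ k) = 1 ∧ of (g ^ k) = k * of g := by
    induction k with
    | zero => simp [sl_one, of_one]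
    | succ k ih =>
      rw [pow_succ, sl_mul, of_mul, h1, ih.1, ih.2]
      constructor
      · norm_num
      · push_cast; ring
  exact ⟨(trans_iff _).2 key.1, key.2⟩

theorem all_of_gap {c : ℝ} (hc : 0 < c) (hG : Gap 2 3 c) {φ : G → ℂ} (hφ : φ ∈ Traces) {g : G}
    (hg : Trans g) (k : ℕ) : 1 - (φ (g ^ k)).re ≤ 2 / c * (1 - (φ g).re) := by
  obtain ⟨μ, hp, hi, ht, -⟩ := exists_meas hφ
  have hg1 := (trans_iff g).1 hg
  obtain ⟨n, j, hr⟩ := of_six g
  obtain ⟨hk1, hk2⟩ := trans_pow hg k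
  have hgk1 := (trans_iff _).1 hk1
  have e1 : φ g = co μ n := by
    rw [ht g hg1, traceOf, if_pos hg1, val_eq hi hr]
  have e2 : φ (g ^ k) = co μ (n * k) := by
    rw [ht _ hgk1, traceOf, if_pos hgk1, val_eq hi (n := n * k) (k := j)]
    rw [hk2, hr]; push_cast; ring
  set N := n.natAbs with hN
  have hpN : IsProbabilityMeasure (μ.map (mul N)) :=
    Measure.isProbabilityMeasure_map (cont_mul N).measurable.aemeasurable
  have hi' := inv_map hi N
  have h3 := gap_atom hG (μ.map (mul N)) hi'.1 hi'.2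
  have h4 := one_sub_re_le (μ.map (mul N)) k
  have e3 : (hat (μ.map (mul N)) 1).re = (φ g).re := by
    change (co (μ.map (mul N)) 1).re = _
    rw [co_map, one_mul, e1, hN, co_re_abs]
  have e4 : (co (μ.map (mul N)) k).re = (φ (g ^ k)).re := by
    rw [co_map, e2, ← co_re_abs μ (n * k), Int.natAbs_mul, hN]
    congr 2
    push_cast
    rw [mul_comm]
    simp
  rw [e3] at h3
  rw [e4] at h4
  calc 1 - (φ (g ^ k)).re ≤ 2 * (1 - (μ.map (mul N)).real {0}) := h4
    _ = 2 / c * (c * (1 - (μ.map (mul N)).real {0})) := by field_simp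
    _ ≤ 2 / c * (1 - (φ g).re) := by gcongr

end Pool.Agent.U106.TR
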