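import Mathlib
import Pool.Agent.Q38.PT.Expk
import Pool.Agent.W763.Tr.Herg
import Pool.Agent.U106.FC.Wiener

/-!
The law attached to an isometry of a Hilbert space and a point (Schoenberg and Herglotz).
-/

set_option autoImplicit false

open MeasureTheory Filter Topology Set
open scoped ComplexOrder

namespace Pool.Agent.U106.TR

open Pool.Agent.U106.FC

theorem gram_psd {H : Type*} [NormedAddCommGroup H] [InnerProductSpace ℝ H] {κ : Type}
    [Fintype κ] (x : κ → H) :
    (Matrix.of fun i j : κ => ((inner ℝ (x i) (x j) : ℝ) : ℂ)).PosSemidef := by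
  classical
  refine Matrix.PosSemidef.of_dotProduct_mulVec_nonneg ?_ fun c => ?_
  · ext i j
    rw [Matrix.conjTranspose_apply, Matrix.of_apply, Matrix.of_apply, real_inner_comm]
    simp
  · have e : star c ⬝ᵥ ((Matrix.of fun i j : κ => ((inner ℝ (x i) (x j) : ℝ) : ℂ)).mulVec c) =
        ((‖∑ i, (c i).re • x i‖ ^ 2 + ‖∑ i, (c i).im • x i‖ ^ 2 : ℝ) : ℂ) := by
      have h1 : ∀ a b : κ → ℝ, inner ℝ (∑ i, a i • x i) (∑ j, b j • x j) =
          ∑ i, ∑ j, a i * b j * inner ℝ (x i) (x j) := by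
        intro a b
        rw [sum_inner]
        refine Finset.sum_congr rfl fun i _ => ?_
        rw [inner_sum]
        refine Finset.sum_congr rfl fun j _ => ?_
        rw [real_inner_smul_left, real_inner_smul_right]
        ring
      rw [← real_inner_self_eq_norm_sq, ← real_inner_self_eq_norm_sq, h1, h1]
      have h2 : star c ⬝ᵥ ((Matrix.of fun i j : κ => ((inner ℝ (x i) (x j) : ℝ) : ℂ)).mulVec c) =
          ∑ i, ∑ j, (starRingEnd ℂ) (c i) * c j * ((inner ℝ (x i) (x j) : ℝ) : ℂ) := by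
        unfold dotProduct Matrix.mulVec dotProduct
        refine Finset.sum_congr rfl fun i _ => ?_
        rw [Finset.mul_sum]
        refine Finset.sum_congr rfl fun j _ => ?_
        simp only [Pi.star_apply, RCLike.star_def, Matrix.of_apply]
        ring
      rw [h2]
      -- the imaginary parts cancel
      have h3 : ∑ i, ∑ j, (c i).re * (c j).im * inner ℝ (x i) (x j) =
          ∑ i, ∑ j, (c i).im * (c j).re * inner ℝ (x i) (x j) := by
        rw [Finset.sum_comm]
        refine Finset.sum_congr rfl fun i _ => Finset.sum_congr rfl fun j _ => ?_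
        rw [real_inner_comm]; ring
      apply Complex.ext
      · rw [Complex.ofReal_re, Complex.re_sum]
        rw [← Finset.sum_add_distrib]
        refine Finset.sum_congr rfl fun i _ => ?_
        rw [Complex.re_sum, ← Finset.sum_add_distrib]
        refine Finset.sum_congr rfl fun j _ => ?_
        simp only [Complex.mul_re, Complex.mul_im, Complex.conj_re, Complex.conj_im,
          Complex.ofReal_re, Complex.ofReal_im]
        ring
      · rw [Complex.ofReal_im, Complex.im_sum]
        have h4 : ∀ i, (∑ j, (starRingEnd ℂ) (c i) * c j * ((inner ℝ (x i) (x j) : ℝ) : ℂ)).im =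
            ∑ j, (c i).re * (c j).im * inner ℝ (x i) (x j) -
              ∑ j, (c i).im * (c j).re * inner ℝ (x i) (x j) := by
          intro i
          rw [Complex.im_sum, ← Finset.sum_sub_distrib]
          refine Finset.sum_congr rfl fun j _ => ?_
          simp only [Complex.mul_re, Complex.mul_im, Complex.conj_re, Complex.conj_im,
            Complex.ofReal_re, Complex.ofReal_im]
          ring
        rw [Finset.sum_congr rfl fun i _ => h4 i, Finset.sum_sub_distrib, h3, sub_self]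
    rw [e, Complex.zero_le_real]
    positivity

theorem gauss_re {H : Type*} [NormedAddCommGroup H] [InnerProductSpace ℝ H] {κ : Type}
    [Fintype κ] (x : κ → H) (c : κ → ℂ) {t : ℝ} (ht : 0 ≤ t) :
    0 ≤ (∑ i, ∑ j, (starRingEnd ℂ) (c i) * c j *
      ((Real.exp (-t * ‖x i - x j‖ ^ 2) : ℝ) : ℂ)).re := by
  classical
  have h0 := gram_psd x
  set A : Matrix κ κ ℂ := (Matrix.of fun i j : κ => ((inner ℝ (x i) (x j) : ℝ) : ℂ)) +
    (Matrix.of fun i j : κ => ((inner ℝ (x i) (x j) : ℝ) : ℂ)) with hA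
  have h1 : A.PosSemidef := h0.add h0
  have h2 := Pool.Agent.Q38.PT.Ex.psd_exp h1 ht
    (fun i : κ => ((Real.exp (-t * ‖x i‖ ^ 2) : ℝ) : ℂ) * c i)
  have h3 : (∑ i : κ, ∑ j : κ, (starRingEnd ℂ) (((Real.exp (-t * ‖x i‖ ^ 2) : ℝ) : ℂ) * c i) *
      (((Real.exp (-t * ‖x j‖ ^ 2) : ℝ) : ℂ) * c j) * Complex.exp (t * A i j)) =
      ∑ i, ∑ j, (starRingEnd ℂ) (c i) * c j *
      ((Real.exp (-t * ‖x i - x j‖ ^ 2) : ℝ) : ℂ) := by
    refine Finset.sum_congr rfl fun i _ => Finset.sum_congr rfl fun j _ => ?_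
    rw [map_mul, Complex.conj_ofReal]
    have h4 : Real.exp (-t * ‖x i - x j‖ ^ 2) = Real.exp (-t * ‖x i‖ ^ 2) *
        Real.exp (-t * ‖x j‖ ^ 2) * Real.exp (t * (inner ℝ (x i) (x j) + inner ℝ (x i) (x j))) := by
      rw [← Real.exp_add, ← Real.exp_add]
      congr 1
      rw [norm_sub_sq_real]
      ring
    rw [h4, hA, Matrix.add_apply, Matrix.of_apply]
    push_cast
    ring
  rw [h3] at h2
  exact h2

variable {H : Type} [NormedAddCommGroup H] [InnerProductSpace ℝ H]

lemma iso_iter {A : H → H} (hA : Isometry A) (n : ℕ) : Isometry A^[n] := by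
  induction n with
  | zero => exact isometry_id
  | succ n ih => rw [Function.iterate_succ]; exact ih.comp hA

lemma iter_dist {A : H → H} (hA : Isometry A) (v : H) (i j : ℕ) :
    ‖A^[i] v - A^[j] v‖ = ‖A^[((i : ℤ) - j).natAbs] v - v‖ := by
  have key : ∀ a b : ℕ, a ≤ b → ‖A^[b] v - A^[a] v‖ = ‖A^[b - a] v - v‖ := by
    intro a b hab
    have e : A^[b] v = A^[a] (A^[b - a] v) := by
      rw [← Function.iterate_add_apply]
      congr 2
      omega
    rw [e, ← dist_eq_norm, ← dist_eq_norm, (iso_iter hA a).dist_eq]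
  rcases le_total j i with h | h
  · rw [key j i h]
    congr 4
    omega
  · rw [norm_sub_rev, key i j h]
    congr 4
    omega

/-- **The law of an isometry and a point.** -/
theorem exists_law {A : H → H} (hA : Isometry A) (v : H) {t : ℝ} (ht : 0 ≤ t) :
    ∃ μ : Measure UnitAddCircle, IsProbabilityMeasure μ ∧
      ∀ n : ℤ, co μ n = ((Real.exp (-t * ‖A^[n.natAbs] v - v‖ ^ 2) : ℝ) : ℂ) := by
  set c : ℤ → ℂ := fun n => ((Real.exp (-t * ‖A^[n.natAbs] v - v‖ ^ 2) : ℝ) : ℂ) with hc
  have h0 : c 0 = 1 := by simp [hc]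
  refine Pool.Agent.W763.Tr.herglotz (c := c) h0 fun N a => ?_
  -- the sum is real and nonnegative
  have hx : ∀ j k : ℕ, c ((j : ℤ) - k) = ((Real.exp (-t * ‖A^[k] v - A^[j] v‖ ^ 2) : ℝ) : ℂ) := by
    intro j k
    rw [hc]
    simp only
    rw [norm_sub_rev (A^[k] v), iter_dist hA v j k]
  have e : ∑ j ∈ Finset.range N, ∑ k ∈ Finset.range N, star (a k) * a j * c ((j : ℤ) - k) =
      ∑ i : Fin N, ∑ j : Fin N, (starRingEnd ℂ) (a i) * a j *
        ((Real.exp (-t * ‖A^[i] v - A^[j] v‖ ^ 2) : ℝ) : ℂ) := by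
    rw [Finset.sum_comm, Finset.sum_range]
    refine Finset.sum_congr rfl fun k _ => ?_
    rw [Finset.sum_range]
    refine Finset.sum_congr rfl fun j _ => ?_
    rw [hx, RCLike.star_def]
  rw [e, Complex.nonneg_iff]
  refine ⟨gauss_re (fun i : Fin N => A^[i] v) (fun i : Fin N => a i) ht, ?_⟩
  have hconj : (starRingEnd ℂ) (∑ i : Fin N, ∑ j : Fin N, (starRingEnd ℂ) (a i) * a j *
        ((Real.exp (-t * ‖A^[i] v - A^[j] v‖ ^ 2) : ℝ) : ℂ)) =
      ∑ i : Fin N, ∑ j : Fin N, (starRingEnd ℂ) (a i) * a j *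
        ((Real.exp (-t * ‖A^[i] v - A^[j] v‖ ^ 2) : ℝ) : ℂ) := by
    rw [map_sum, Finset.sum_comm]
    simp_rw [map_sum]
    rw [Finset.sum_comm]
    rw [Finset.sum_comm]
    refine Finset.sum_congr rfl fun i _ => Finset.sum_congr rfl fun j _ => ?_
    rw [map_mul, map_mul, Complex.conj_conj, Complex.conj_ofReal, norm_sub_rev]
    ring
  have := Complex.conj_eq_iff_im.1 hconj
  exact this.symm

end Pool.Agent.U106.TR
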