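import Pool.Agent.U106.TR.RCopy
import Pool.Agent.U106.TR.Schoen

/-!
Infinite Lévy measures, isometries of Hilbert spaces and the gap at the trivial character.
The construction of `exists_lev` is that of `gap_of_sigma` in the starting file `R203.ID.Gap`.
-/

set_option autoImplicit false

open MeasureTheory Filter Topology Set
open scoped ENNReal NNReal ComplexOrder

namespace Pool.Agent.U106.TR

open Pool.Agent.U106.FC
open Pool.Agent.R203.ID (Lev hat exists_levy levy_atomless levy_inv levy_ne_vol)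
open RC (Gap lev_of far_mass atom_bound gap_atom hat_re)

/-- From the absence of a gap to an infinite Lévy measure. -/
theorem exists_lev {p q : ℕ} (hp2 : 2 ≤ p) (hcon : ¬ ∃ c : ℝ, 0 < c ∧ Gap p q c) :
    ∃ L : Measure UnitAddCircle, Lev L ∧ MeasurePreserving (mul p) L L ∧
      MeasurePreserving (mul q) L L ∧ L Set.univ = ⊤ ∧
      ∃ a : ℝ, 0 ≤ a ∧ ∀ x : UnitAddCircle, x ≠ 0 → L {x} ≤ ENNReal.ofReal a := by
  push Not at hcon
  have h1 : ∀ n : ℕ, ∃ μ : Measure UnitAddCircle, IsProbabilityMeasure μ ∧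
      MeasurePreserving (mul p) μ μ ∧ MeasurePreserving (mul q) μ μ ∧
      μ {0} = 0 ∧ 1 - (1 / 2 : ℝ) ^ n < (hat μ 1).re := by
    intro n
    have := hcon ((1 / 2 : ℝ) ^ n) (by positivity)
    unfold Gap at this
    push Not at this
    exact this
  choose μ hμ hp hq h0 hre using h1
  set L : Measure UnitAddCircle := Measure.sum μ with hL
  have hinv : ∀ d : ℕ, (∀ n, MeasurePreserving (mul d) (μ n) (μ n)) →
      MeasurePreserving (mul d) L L := by
    intro d hd
    have hm : Measurable (mul d) := (cont_mul d).measurable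
    refine ⟨hm, ?_⟩
    ext s hs
    rw [Measure.map_apply hm hs, hL, Measure.sum_apply _ (hm hs), Measure.sum_apply _ hs]
    refine tsum_congr fun n => ?_
    exact (hd n).measure_preimage hs.nullMeasurableSet
  have hfar : ∀ r : ℝ, 0 < r → L {x | r ≤ ‖x‖} < ⊤ := by
    intro r hr
    have hm : MeasurableSet {x : UnitAddCircle | r ≤ ‖x‖} :=
      (isClosed_le continuous_const continuous_norm).measurableSet
    rw [hL, Measure.sum_apply _ hm]
    have hb : ∀ n, μ n {x | r ≤ ‖x‖} ≤ ENNReal.ofReal ((1 / 2 : ℝ) ^ n / (8 * r ^ 2)) := by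
      intro n
      have h2 := far_mass (μ n) hr
      rw [← ofReal_measureReal (measure_ne_top _ _)]
      apply ENNReal.ofReal_le_ofReal
      refine h2.trans ?_
      gcongr
      have := hre n
      linarith
    refine (ENNReal.tsum_le_tsum hb).trans_lt ?_
    rw [← ENNReal.ofReal_tsum_of_nonneg (fun n => by positivity)
      ((summable_geometric_of_lt_one (by norm_num) (by norm_num)).div_const _)]
    exact ENNReal.ofReal_lt_top
  have hz : L {0} = 0 := by
    rw [hL, Measure.sum_apply _ (measurableSet_singleton 0)]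
    simp [h0]
  have hpL := hinv p hp
  refine ⟨L, lev_of hp2 hpL hz hfar, hpL, hinv q hq, ?_, ?_⟩
  · rw [hL, Measure.sum_apply _ MeasurableSet.univ]
    simp only [measure_univ]
    exact ENNReal.tsum_const_eq_top_of_ne_zero one_ne_zero
  · have hfin := hfar (1 / (2 * (p : ℝ))) (by positivity)
    refine ⟨(L {x : UnitAddCircle | 1 / (2 * (p : ℝ)) ≤ ‖x‖}).toReal, ENNReal.toReal_nonneg,
      fun x hx => ?_⟩
    rw [ENNReal.ofReal_toReal hfin.ne]
    exact atom_bound hp2 hpL hx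

lemma Lev_smul {L : Measure UnitAddCircle} (hL : Lev L) (s : ℝ≥0) : Lev (s • L) := by
  refine ⟨?_, fun r hr => ?_, ?_⟩
  · rw [Measure.smul_apply, hL.zero]; simp
  · rw [Measure.smul_apply]
    exact ENNReal.mul_lt_top ENNReal.coe_lt_top (hL.fin r hr)
  · exact hL.int.smul_measure_nnreal

/-- the semigroup -/
theorem exists_nu {p q : ℕ} {L : Measure UnitAddCircle} (hL : Lev L)
    (h1 : MeasurePreserving (mul p) L L) (h2 : MeasurePreserving (mul q) L L)
    (hinf : L Set.univ = ⊤) {a : ℝ} (ha : 0 ≤ a)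
    (hat' : ∀ x : UnitAddCircle, x ≠ 0 → L {x} ≤ ENNReal.ofReal a) {t : ℝ} (ht : 0 < t) :
    ∃ ν : Measure UnitAddCircle, IsProbabilityMeasure ν ∧ (∀ x, ν {x} = 0) ∧
      MeasurePreserving (mul p) ν ν ∧ MeasurePreserving (mul q) ν ν ∧ ν ≠ volume ∧
      ∀ m : ℤ, co ν m = Complex.exp (-(t * ∫ x, (1 - (fourier m x : ℂ)) ∂L)) := by
  set s : ℝ≥0 := ⟨t, ht.le⟩ with hs
  have hs0 : (s : ℝ≥0∞) ≠ 0 := by
    rw [Ne, ENNReal.coe_eq_zero]
    intro h
    have h5 : (s : ℝ) = 0 := by rw [h]; rfl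
    have h6 : (s : ℝ) = t := rfl
    linarith
  have hLs := Lev_smul hL s
  obtain ⟨ν, hν, hhat⟩ := exists_levy hLs
  have hinv : ∀ d : ℕ, MeasurePreserving (mul d) L L → MeasurePreserving (mul d) (s • L) (s • L) := by
    intro d hd
    refine ⟨hd.measurable, ?_⟩
    rw [Measure.map_smul, hd.map_eq]
  refine ⟨ν, hν, ?_, levy_inv (hinv p h1) hhat, levy_inv (hinv q h2) hhat, levy_ne_vol hhat, ?_⟩
  · refine levy_atomless hLs ?_ (a := t * a) (by positivity) (fun x hx => ?_) hhat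
    · rw [Measure.smul_apply, hinf]
      exact ENNReal.mul_top hs0
    · rw [Measure.smul_apply, ENNReal.ofReal_mul ht.le]
      have e : ENNReal.ofReal t = (s : ℝ≥0∞) := by
        rw [ENNReal.ofReal, ENNReal.coe_inj]
        exact Real.toNNReal_of_nonneg ht.le
      rw [e]
      exact mul_le_mul_right (hat' x hx) _
  · intro m
    change hat ν m = _
    rw [hhat m, integral_smul_nnreal_measure]
    congr 2

/-! ### the isometry -/

section

variable {L : Measure UnitAddCircle}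

lemma sub_memLp (hL : Lev L) (m : ℤ) :
    MemLp (fun x : UnitAddCircle => (fourier m x : ℂ) - 1) 2 L := by
  have hc : Continuous fun x : UnitAddCircle => (fourier m x : ℂ) - 1 :=
    (fourier m).continuous.sub continuous_const
  rw [memLp_two_iff_integrable_sq_norm hc.aestronglyMeasurable]
  refine ((hL.int_f m).norm.const_mul 2).mono'
    ((((fourier m).continuous.sub continuous_const).norm.pow 2).aestronglyMeasurable)
    (Eventually.of_forall fun x => ?_)
  have h1 : ‖(fourier m x : ℂ) - 1‖ ≤ 2 := by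
    refine (norm_sub_le _ _).trans ?_
    rw [norm_fourier, norm_one]; norm_num
  rw [Real.norm_of_nonneg (by positivity), norm_sub_rev (1 : ℂ)]
  nlinarith [norm_nonneg ((fourier m x : ℂ) - 1)]

lemma aff_memLp (hL : Lev L) (f : Lp ℂ 2 L) :
    MemLp (fun x : UnitAddCircle => (fourier 1 x : ℂ) * f x + ((fourier 1 x : ℂ) - 1)) 2 L := by
  refine MemLp.add ?_ (sub_memLp hL 1)
  refine (Lp.memLp f).congr_norm
    ((fourier 1).continuous.aestronglyMeasurable.mul (Lp.aestronglyMeasurable f))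
    (Eventually.of_forall fun x => ?_)
  rw [norm_mul, norm_fourier, one_mul]

/-- the isometry `f ↦ e f + (e - 1)` -/
noncomputable def aff (hL : Lev L) (f : Lp ℂ 2 L) : Lp ℂ 2 L := (aff_memLp hL f).toLp

lemma aff_isometry (hL : Lev L) : Isometry (aff hL) := by
  intro f g
  unfold aff
  rw [Lp.edist_toLp_toLp, Lp.edist_def]
  refine eLpNorm_congr_norm_ae (Eventually.of_forall fun x => ?_)
  simp only [Pi.sub_apply]
  have : (fourier 1 x : ℂ) * f x + ((fourier 1 x : ℂ) - 1) -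
      ((fourier 1 x : ℂ) * g x + ((fourier 1 x : ℂ) - 1)) = (fourier 1 x : ℂ) * (f x - g x) := by
    ring
  rw [this, norm_mul, norm_fourier, one_mul]

lemma aff_iter (hL : Lev L) (n : ℕ) :
    (((aff hL)^[n] 0 : Lp ℂ 2 L) : UnitAddCircle → ℂ) =ᵐ[L]
      fun x => (fourier (n : ℤ) x : ℂ) - 1 := by
  induction n with
  | zero =>
    rw [Function.iterate_zero, id_eq]
    filter_upwards [Lp.coeFn_zero ℂ 2 L] with x hx
    rw [hx]; simp
  | succ n ih =>
    rw [Function.iterate_succ_apply']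
    filter_upwards [ih, (aff_memLp hL ((aff hL)^[n] 0)).coeFn_toLp] with x h1 h2
    rw [aff, h2, h1]
    have : (fourier ((n + 1 : ℕ) : ℤ) x : ℂ) = fourier 1 x * fourier (n : ℤ) x := by
      rw [← fourier_add]
      congr 2
      push_cast; ring
    rw [this]; ring

lemma aff_dist (hL : Lev L) (n : ℕ) :
    dist ((aff hL)^[n] 0) 0 ^ 2 = ∫ x, ‖(fourier (n : ℤ) x : ℂ) - 1‖ ^ 2 ∂L := by
  rw [dist_zero_right]
  have h1 := @inner_self_eq_norm_sq_to_K ℂ (Lp ℂ 2 L) _ _ _ ((aff hL)^[n] 0)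
  rw [L2.inner_def] at h1
  have h2 : ∫ x, inner ℂ (((aff hL)^[n] 0 : Lp ℂ 2 L) x) (((aff hL)^[n] 0 : Lp ℂ 2 L) x) ∂L =
      ∫ x, ((‖(fourier (n : ℤ) x : ℂ) - 1‖ ^ 2 : ℝ) : ℂ) ∂L := by
    refine integral_congr_ae ?_
    filter_upwards [aff_iter hL n] with x hx
    rw [hx, inner_self_eq_norm_sq_to_K]
    push_cast; rfl
  rw [h2, integral_complex_ofReal] at h1
  have h3 : ((∫ x, ‖(fourier (n : ℤ) x : ℂ) - 1‖ ^ 2 ∂L : ℝ) : ℂ) =
    ((‖(aff hL)^[n] 0‖ ^ 2 : ℝ) : ℂ) := by
    rw [h1]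
    push_cast
    rfl
  exact (Complex.ofReal_injective h3).symm

lemma aff_inv (hL : Lev L) {d : ℕ} (hd : MeasurePreserving (mul d) L L) (n : ℕ) :
    dist ((aff hL)^[d * n] 0) 0 = dist ((aff hL)^[n] 0) 0 := by
  have h1 : dist ((aff hL)^[d * n] 0) 0 ^ 2 = dist ((aff hL)^[n] 0) 0 ^ 2 := by
    rw [aff_dist, aff_dist]
    have h2 := integral_map (μ := L) (φ := mul d) hd.measurable.aemeasurable
      (f := fun x : UnitAddCircle => ‖(fourier (n : ℤ) x : ℂ) - 1‖ ^ 2)
      (((fourier (n : ℤ)).continuous.sub continuous_const).norm.pow 2).aestronglyMeasurable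
    rw [hd.map_eq] at h2
    rw [h2]
    refine integral_congr_ae (Eventually.of_forall fun x => ?_)
    simp only
    rw [fourier_nsmul]
    congr 3
    push_cast
    rw [mul_comm]
  exact (sq_eq_sq₀ dist_nonneg dist_nonneg).1 h1

/-- the displacement is the exponent -/
lemma re_F (hL : Lev L) (n : ℕ) :
    2 * (∫ x, (1 - (fourier (n : ℤ) x : ℂ)) ∂L).re = dist ((aff hL)^[n] 0) 0 ^ 2 := by
  rw [aff_dist]
  have h1 := integral_re (𝕜 := ℂ) (hL.int_f (n : ℤ))
  have h2 : (∫ x, (1 - (fourier (n : ℤ) x : ℂ)) ∂L).re =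
      ∫ x, (1 - (fourier (n : ℤ) x : ℂ)).re ∂L := h1.symm
  rw [h2, ← integral_const_mul]
  refine integral_congr_ae (Eventually.of_forall fun x => ?_)
  simp only
  have h3 := norm_fourier (n : ℤ) x
  have h4 : ‖(fourier (n : ℤ) x : ℂ) - 1‖ ^ 2 =
      ((fourier (n : ℤ) x : ℂ).re - 1) ^ 2 + (fourier (n : ℤ) x : ℂ).im ^ 2 := by
    rw [← Complex.normSq_eq_norm_sq, Complex.normSq_apply]
    simp only [Complex.sub_re, Complex.sub_im, Complex.one_re, Complex.one_im]
    ring
  have h5 : (fourier (n : ℤ) x : ℂ).re ^ 2 + (fourier (n : ℤ) x : ℂ).im ^ 2 = 1 := by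
    have := Complex.normSq_eq_norm_sq (fourier (n : ℤ) x : ℂ)
    rw [h3, Complex.normSq_apply] at this
    nlinarith
  rw [h4, Complex.sub_re, Complex.one_re]
  nlinarith

end

/-- Without a gap there is an isometry with an unbounded orbit. -/
theorem exists_unbounded {p q : ℕ} (hp2 : 2 ≤ p) (hcon : ¬ ∃ c : ℝ, 0 < c ∧ Gap p q c) :
    ∃ (H : Type) (_ : NormedAddCommGroup H) (_ : InnerProductSpace ℝ H) (A : H → H) (v : H),
      Isometry A ∧ (∀ n : ℕ, dist (A^[p * n] v) v = dist (A^[n] v) v) ∧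
      (∀ n : ℕ, dist (A^[q * n] v) v = dist (A^[n] v) v) ∧
      ¬ ∃ C : ℝ, ∀ n : ℕ, dist (A^[n] v) v ≤ C := by
  obtain ⟨L, hL, h1, h2, hinf, a, ha, hat'⟩ := exists_lev hp2 hcon
  refine ⟨Lp ℂ 2 L, inferInstance, inferInstance, aff hL, 0, aff_isometry hL, aff_inv hL h1,
    aff_inv hL h2, ?_⟩
  rintro ⟨C, hC⟩
  obtain ⟨ν, hν, hν0, -, -, -, hνc⟩ := exists_nu hL h1 h2 hinf ha hat' one_pos
  have h3 := wiener_atomless hν0
  set δ : ℝ := Real.exp (-(C ^ 2 / 2)) ^ 2 with hδ
  have hδ0 : 0 < δ := by positivity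
  have h4 : ∀ n : ℕ, δ ≤ ‖co ν n‖ ^ 2 := by
    intro n
    rw [hνc, Complex.norm_exp, hδ]
    refine pow_le_pow_left₀ (Real.exp_pos _).le (Real.exp_le_exp.2 ?_) 2
    have h5 := re_F hL n
    have h6 := hC n
    have h7 : dist ((aff hL)^[n] 0) 0 ^ 2 ≤ C ^ 2 := pow_le_pow_left₀ dist_nonneg h6 2
    have e : (-(((1 : ℝ) : ℂ) * ∫ x, (1 - (fourier (n : ℤ) x : ℂ)) ∂L)).re =
        -(∫ x, (1 - (fourier (n : ℤ) x : ℂ)) ∂L).re := by
      rw [Complex.neg_re, Complex.re_ofReal_mul, one_mul]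
    rw [e]
    linarith
  have h5 : ∀ᶠ N : ℕ in atTop, δ ≤ (N : ℝ)⁻¹ * ∑ k ∈ Finset.range N, ‖co ν k‖ ^ 2 := by
    filter_upwards [eventually_gt_atTop 0] with N hN
    have hN0 : (0 : ℝ) < N := by exact_mod_cast hN
    have h6 : ∑ k ∈ Finset.range N, δ ≤ ∑ k ∈ Finset.range N, ‖co ν k‖ ^ 2 :=
      Finset.sum_le_sum fun k _ => h4 k
    rw [Finset.sum_const, Finset.card_range, nsmul_eq_mul] at h6
    rw [le_inv_mul_iff₀ hN0]
    exact h6
  exact absurd (ge_of_tendsto h3 h5) (not_le.2 hδ0)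

lemma one_sub_re_le (μ : Measure UnitAddCircle) [IsProbabilityMeasure μ] (m : ℤ) :
    1 - (co μ m).re ≤ 2 * (1 - μ.real {0}) := by
  have h1 := hat_re μ m
  have h2 : 1 - (co μ m).re = ∫ x, (1 - (fourier m x : ℂ).re) ∂μ := h1
  rw [h2]
  have h3 : ∫ x, (1 - (fourier m x : ℂ).re) ∂μ ≤
      ∫ x, ({0}ᶜ : Set UnitAddCircle).indicator (fun _ => (2 : ℝ)) x ∂μ := by
    refine integral_mono_of_nonneg (Eventually.of_forall fun x => ?_)
      ((integrable_const (2 : ℝ)).indicator (measurableSet_singleton 0).compl)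
      (Eventually.of_forall fun x => ?_)
    · have := (Complex.re_le_norm (fourier m x : ℂ)).trans (norm_fourier m x).le
      simp only [Pi.zero_apply]
      linarith
    · simp only
      by_cases hx : x = 0
      · rw [hx, Set.indicator_of_notMem (by simp)]
        simp
      · rw [Set.indicator_of_mem (by simpa using hx)]
        have h4 := Complex.abs_re_le_norm (fourier m x : ℂ)
        rw [norm_fourier] at h4
        have := (abs_le.1 h4).1
        linarith
  refine h3.trans (le_of_eq ?_)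
  rw [integral_indicator (measurableSet_singleton 0).compl, integral_const]
  simp only [measureReal_restrict_apply_univ, smul_eq_mul]
  rw [measureReal_compl (measurableSet_singleton 0), probReal_univ]
  ring

/-- Passing to the limit `t → 0` in an inequality for `exp (- t ψ)`. -/
lemma lim_exp {a b D : ℝ} (ha : 0 ≤ a) (hD : 0 ≤ D)
    (h : ∀ t : ℝ, 0 < t → 1 - Real.exp (-t * a) ≤ D * (1 - Real.exp (-t * b))) : a ≤ D * b := by
  by_contra hcon
  push Not at hcon
  -- `1 - e^{-x} ≥ x - x²/2`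
  have h1 : ∀ x : ℝ, 0 ≤ x → x - x ^ 2 / 2 ≤ 1 - Real.exp (-x) := by
    intro x hx
    have h2 : Real.exp (-x) * (1 + x + x ^ 2 / 2) ≤ 1 := by
      have h3 := Real.quadratic_le_exp_of_nonneg hx
      calc Real.exp (-x) * (1 + x + x ^ 2 / 2) ≤ Real.exp (-x) * Real.exp x := by gcongr
        _ = 1 := by rw [← Real.exp_add]; simp
    have h3 : 1 ≤ (1 - x + x ^ 2 / 2) * (1 + x + x ^ 2 / 2) := by nlinarith [sq_nonneg (x ^ 2)]
    have h4 : 0 < 1 + x + x ^ 2 / 2 := by positivity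
    have h5 : Real.exp (-x) * (1 + x + x ^ 2 / 2) ≤ (1 - x + x ^ 2 / 2) * (1 + x + x ^ 2 / 2) :=
      h2.trans h3
    have h6 := le_of_mul_le_mul_right h5 h4
    linarith
  have h2 : ∀ x : ℝ, 1 - Real.exp (-x) ≤ x := by
    intro x
    have := Real.add_one_le_exp (-x)
    linarith
  have key : ∀ t : ℝ, 0 < t → a - D * b ≤ t * (a ^ 2 / 2) := by
    intro t ht
    have h3 := h t ht
    have h4 := h1 (t * a) (by positivity)
    have h5 := h2 (t * b)
    rw [neg_mul, neg_mul] at h3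
    have h6 : t * a - (t * a) ^ 2 / 2 ≤ D * (t * b) := by
      calc t * a - (t * a) ^ 2 / 2 ≤ D * (1 - Real.exp (-(t * b))) := h4.trans h3
        _ ≤ D * (t * b) := by gcongr
    have h7 : t * (a - D * b) ≤ t * (t * (a ^ 2 / 2)) := by nlinarith
    exact le_of_mul_le_mul_left h7 ht
  have h3 := key ((a - D * b) / (a ^ 2 + 1)) (by
    apply div_pos (by linarith) (by positivity))
  have h4 : (a - D * b) / (a ^ 2 + 1) * (a ^ 2 / 2) < a - D * b := by
    rw [div_mul_eq_mul_div, div_lt_iff₀ (by positivity)]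
    nlinarith
  linarith

/-- With a gap the orbits are bounded, uniformly. -/
theorem bounded_of_gap {p q : ℕ} {c : ℝ} (hc : 0 < c) (hG : Gap p q c) {H : Type}
    [NormedAddCommGroup H] [InnerProductSpace ℝ H] {A : H → H} (hA : Isometry A) (v : H)
    (h1 : ∀ n : ℕ, dist (A^[p * n] v) v = dist (A^[n] v) v)
    (h2 : ∀ n : ℕ, dist (A^[q * n] v) v = dist (A^[n] v) v) (n : ℕ) :
    dist (A^[n] v) v ^ 2 ≤ 2 / c * dist (A v) v ^ 2 := by
  refine lim_exp (by positivity) (by positivity) fun t ht => ?_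
  obtain ⟨μ, hμ, hco⟩ := exists_law hA v ht.le
  have hinv : ∀ d : ℕ, (∀ n : ℕ, dist (A^[d * n] v) v = dist (A^[n] v) v) →
      MeasurePreserving (mul d) μ μ := by
    intro d hd
    refine (Pool.Agent.R203.ID.inv_iff (μ := μ) d).2 fun m => ?_
    change co μ (m * d) = co μ m
    rw [hco, hco, ← dist_eq_norm, ← dist_eq_norm, Int.natAbs_mul, Int.natAbs_natCast,
      mul_comm m.natAbs d, hd]
  have h3 := gap_atom hG μ (hinv p h1) (hinv q h2)
  have h4 := one_sub_re_le μ n
  have e1 : (co μ (n : ℤ)).re = Real.exp (-t * dist (A^[n] v) v ^ 2) := by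
    rw [hco, Complex.ofReal_re, Int.natAbs_natCast, dist_eq_norm]
  have e2 : (hat μ 1).re = Real.exp (-t * dist (A v) v ^ 2) := by
    change (co μ 1).re = _
    rw [hco, Complex.ofReal_re, dist_eq_norm]
    rfl
  rw [e1] at h4
  rw [e2] at h3
  calc 1 - Real.exp (-t * dist (A^[n] v) v ^ 2) ≤ 2 * (1 - μ.real {0}) := h4
    _ = 2 / c * (c * (1 - μ.real {0})) := by field_simp
    _ ≤ 2 / c * (1 - Real.exp (-t * dist (A v) v ^ 2)) := by gcongr

end Pool.Agent.U106.TR
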