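import Mathlib
import Pool.Agent.R203.ID.Levy
import Pool.Agent.TH654.FC.Open

/-!
Copies of lemmas of the starting files `R203.ID.Red`, `R203.ID.Gap`, `R203.ID.Equiv` (which cannot be
imported together with the files on the traces, because of a clash of names).
-/

set_option autoImplicit false
open MeasureTheory Filter Topology
open scoped NNReal ENNReal

namespace Pool.Agent.U106.TR.RC

open Pool.Agent.TH654.FC (nsmul_norm_eq norm_le_half re_lower open_growth exists_killing)
open Pool.Agent.R203.ID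

lemma mp_pow1 {p : ℕ} {L : Measure TT} (h : MeasurePreserving (fun x : TT => p • x) L L) (n : ℕ) :
    MeasurePreserving (fun x : TT => (p ^ n) • x) L L := by
  induction n with
  | zero =>
    simp only [pow_zero, one_smul]
    exact MeasurePreserving.id L
  | succ n ih =>
    have := h.comp ih
    have e : (fun x : TT => p ^ (n + 1) • x) = (fun x : TT => p • x) ∘ fun x : TT => p ^ n • x := by
      funext x
      simp only [Function.comp]
      rw [← mul_smul, ← pow_succ']
    rw [e]; exact this

lemma exists_far {p : ℕ} (hp : 2 ≤ p) {x : TT} (hx : x ≠ 0) :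
    ∃ n : ℕ, 1 / (2 * (p : ℝ)) ≤ ‖(p ^ n) • x‖ := by
  by_contra hcon
  push Not at hcon
  have hpR : (2 : ℝ) ≤ p := by exact_mod_cast hp
  have h1 : ∀ n : ℕ, ‖(p ^ n) • x‖ = (p : ℝ) ^ n * ‖x‖ := by
    intro n
    induction n with
    | zero => simp
    | succ n ih =>
      rw [pow_succ', mul_smul, nsmul_norm_eq, ih]
      · ring
      · have := hcon n
        rw [lt_div_iff₀ (by positivity)] at this
        linarith
  have h2 : 0 < ‖x‖ := norm_pos_iff.2 hx
  obtain ⟨n, hn⟩ := pow_unbounded_of_one_lt (1 / ‖x‖) (show (1 : ℝ) < p by linarith)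
  have h3 := norm_le_half ((p ^ n) • x)
  rw [h1 n] at h3
  rw [div_lt_iff₀ h2] at hn
  linarith

/-- atoms are bounded -/
lemma atom_bound {p : ℕ} (hp : 2 ≤ p) {L : Measure TT}
    (h : MeasurePreserving (fun x : TT => p • x) L L) {x : TT} (hx : x ≠ 0) :
    L {x} ≤ L {x | 1 / (2 * (p : ℝ)) ≤ ‖x‖} := by
  obtain ⟨n, hn⟩ := exists_far hp hx
  have h1 := (mp_pow1 h n).measure_preimage (measurableSet_singleton ((p ^ n) • x)).nullMeasurableSet
  calc L {x} ≤ L ((fun x : TT => (p ^ n) • x) ⁻¹' {(p ^ n) • x}) := by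
        apply measure_mono
        rintro y rfl
        rfl
    _ = L {(p ^ n) • x} := h1
    _ ≤ _ := by
        apply measure_mono
        rintro y rfl
        exact hn

/-- invariant measures which are finite away from zero have a finite first moment -/
theorem lev_of {p : ℕ} (hp : 2 ≤ p) {L : Measure TT}
    (h : MeasurePreserving (fun x : TT => p • x) L L) (h0 : L {0} = 0)
    (hfin : ∀ r : ℝ, 0 < r → L {x | r ≤ ‖x‖} < ⊤) : Lev L := by
  refine ⟨h0, hfin, ?_⟩
  have hpR : (2 : ℝ) ≤ p := by exact_mod_cast hp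
  have hp0 : (0 : ℝ) < p := by linarith
  set y : ℝ := 1 / p with hy
  have hy0 : 0 < y := by positivity
  have hy1 : y < 1 := by rw [hy, div_lt_one hp0]; linarith
  have hpy : (p : ℝ) * y = 1 := by rw [hy]; field_simp
  set r0 : ℝ := 1 / (2 * p) with hr0
  have hr00 : 0 < r0 := by positivity
  have hpr0 : (p : ℝ) * r0 = 1 / 2 := by rw [hr0]; field_simp
  set S : ℕ → Set TT := fun k => {x | r0 * y ^ (k + 1) < ‖x‖ ∧ ‖x‖ ≤ r0 * y ^ k} with hS
  have hSm : ∀ k, MeasurableSet (S k) := fun k =>
    ((isOpen_lt continuous_const continuous_norm).measurableSet).inter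
      ((isClosed_le continuous_norm continuous_const).measurableSet)
  set a := L {x | r0 * y ≤ ‖x‖} with ha
  have ha' : a < ⊤ := hfin _ (by positivity)
  have hSa : ∀ k, L (S k) ≤ a := by
    intro k
    induction k with
    | zero =>
      apply measure_mono
      intro x hx
      have := hx.1
      rw [zero_add, pow_one] at this
      exact this.le
    | succ k ih =>
      refine le_trans ?_ ih
      rw [← h.measure_preimage (hSm k).nullMeasurableSet]
      apply measure_mono
      intro x hx
      obtain ⟨h1, h2⟩ := hx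
      have hy2 : y ^ (k + 1) ≤ y := by
        rw [pow_succ]
        exact mul_le_of_le_one_left hy0.le (pow_le_one₀ hy0.le hy1.le)
      have h3 : ‖p • x‖ = p * ‖x‖ := by
        apply nsmul_norm_eq
        calc (p : ℝ) * ‖x‖ ≤ p * (r0 * y ^ (k + 1)) := mul_le_mul_of_nonneg_left h2 hp0.le
          _ = (p * r0) * y ^ (k + 1) := by ring
          _ ≤ 1 / 2 := by
            rw [hpr0]
            have : y ^ (k + 1) ≤ 1 := pow_le_one₀ hy0.le hy1.le
            linarith
      show r0 * y ^ (k + 1) < ‖p • x‖ ∧ ‖p • x‖ ≤ r0 * y ^ k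
      rw [h3]
      constructor
      · calc r0 * y ^ (k + 1) = p * (r0 * y ^ (k + 1 + 1)) := by
              rw [pow_succ y (k + 1)]
              linear_combination (-(r0 * y ^ (k + 1))) * hpy
          _ < p * ‖x‖ := mul_lt_mul_of_pos_left h1 hp0
      · calc p * ‖x‖ ≤ p * (r0 * y ^ (k + 1)) := mul_le_mul_of_nonneg_left h2 hp0.le
          _ = r0 * y ^ k := by
              rw [pow_succ y k]
              linear_combination (r0 * y ^ k) * hpy
  -- the cover
  have hcov : (Set.univ : Set TT) ⊆ {0} ∪ ({x | r0 ≤ ‖x‖} ∪ ⋃ k, S k) := by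
    intro x _
    by_cases hx : x = 0
    · exact Or.inl hx
    · right
      by_cases hx2 : r0 ≤ ‖x‖
      · exact Or.inl hx2
      · right
        push Not at hx2
        have h1 : 0 < ‖x‖ / r0 := div_pos (norm_pos_iff.2 hx) hr00
        have h2 : ‖x‖ / r0 ≤ 1 := by rw [div_le_one hr00]; exact hx2.le
        obtain ⟨k, hk1, hk2⟩ := exists_nat_pow_near_of_lt_one h1 h2 hy0 hy1
        rw [Set.mem_iUnion]
        refine ⟨k, ?_, ?_⟩
        · rw [lt_div_iff₀ hr00] at hk1; linarith
        · rw [div_le_iff₀ hr00] at hk2; linarith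
  have hmeas : Measurable fun x : TT => ‖x‖ := continuous_norm.measurable
  refine ⟨hmeas.aestronglyMeasurable, ?_⟩
  rw [hasFiniteIntegral_iff_norm]
  simp only [norm_norm]
  have hle : ∫⁻ x, ENNReal.ofReal ‖x‖ ∂L ≤ 0 + (L {x | r0 ≤ ‖x‖} +
      ∑' k, ENNReal.ofReal (r0 * y ^ k) * a) := by
    calc ∫⁻ x, ENNReal.ofReal ‖x‖ ∂L = ∫⁻ x in Set.univ, ENNReal.ofReal ‖x‖ ∂L := by
          rw [Measure.restrict_univ]
      _ ≤ ∫⁻ x in {0} ∪ ({x | r0 ≤ ‖x‖} ∪ ⋃ k, S k), ENNReal.ofReal ‖x‖ ∂L :=
          lintegral_mono_set hcov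
      _ ≤ ∫⁻ x in {0}, ENNReal.ofReal ‖x‖ ∂L + ∫⁻ x in {x | r0 ≤ ‖x‖} ∪ ⋃ k, S k,
            ENNReal.ofReal ‖x‖ ∂L := lintegral_union_le _ _ _
      _ ≤ 0 + (L {x | r0 ≤ ‖x‖} + ∑' k, ENNReal.ofReal (r0 * y ^ k) * a) := by
          apply add_le_add
          · rw [setLIntegral_measure_zero _ _ h0]
          · refine (lintegral_union_le _ _ _).trans ?_
            apply add_le_add
            · calc ∫⁻ x in {x | r0 ≤ ‖x‖}, ENNReal.ofReal ‖x‖ ∂L
                  ≤ ∫⁻ _x in {x | r0 ≤ ‖x‖}, 1 ∂L := by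
                    apply lintegral_mono
                    intro x
                    rw [← ENNReal.ofReal_one]
                    apply ENNReal.ofReal_le_ofReal
                    have := norm_le_half x
                    linarith
                _ = L {x | r0 ≤ ‖x‖} := by simp
            · refine (lintegral_iUnion_le _ _).trans ?_
              apply ENNReal.tsum_le_tsum
              intro k
              calc ∫⁻ x in S k, ENNReal.ofReal ‖x‖ ∂L
                  ≤ ∫⁻ _x in S k, ENNReal.ofReal (r0 * y ^ k) ∂L := by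
                    apply setLIntegral_mono measurable_const
                    intro x hx
                    exact ENNReal.ofReal_le_ofReal hx.2
                _ = ENNReal.ofReal (r0 * y ^ k) * L (S k) := by simp
                _ ≤ _ := by gcongr; exact hSa k
  refine hle.trans_lt ?_
  rw [zero_add, ENNReal.tsum_mul_right]
  apply ENNReal.add_lt_top.2
  refine ⟨hfin _ hr00, ?_⟩
  apply ENNReal.mul_lt_top _ ha'
  rw [← ENNReal.ofReal_tsum_of_nonneg (fun k => by positivity)
    ((summable_geometric_of_lt_one hy0.le hy1).mul_left r0)]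
  exact ENNReal.ofReal_lt_top

/-- removing the mass at zero -/
lemma mp_restrict {p : ℕ} {M : Measure TT}
    (h : MeasurePreserving (fun x : TT => p • x) M M) (h0 : M {0} ≠ ⊤) :
    MeasurePreserving (fun x : TT => p • x) (M.restrict {0}ᶜ) (M.restrict {0}ᶜ) := by
  have hs : MeasurableSet ({0}ᶜ : Set TT) := (measurableSet_singleton 0).compl
  have h1 := h.restrict_preimage hs
  have h2 : ((fun x : TT => p • x) ⁻¹' {0}ᶜ) =ᵐ[M] ({0}ᶜ : Set TT) := by
    rw [Set.preimage_compl]
    apply ae_eq_set_compl_compl.2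
    have h3 : M ((fun x : TT => p • x) ⁻¹' {0}) = M {0} :=
      h.measure_preimage (measurableSet_singleton 0).nullMeasurableSet
    have h4 : ({0} : Set TT) ⊆ (fun x : TT => p • x) ⁻¹' {0} := by
      rintro x rfl
      simp
    exact (ae_eq_of_subset_of_measure_ge h4 h3.le (measurableSet_singleton 0).nullMeasurableSet
      (by rw [h3]; exact h0)).symm
  rwa [Measure.restrict_congr_set h2] at h1

/-- the gap -/
def Gap (p q : ℕ) (c : ℝ) : Prop :=
  ∀ μ : Measure TT, IsProbabilityMeasure μ →
    MeasurePreserving (fun x : TT => p • x) μ μ → MeasurePreserving (fun x : TT => q • x) μ μ →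
    μ {0} = 0 → (hat μ 1).re ≤ 1 - c

lemma hat_re (μ : Measure TT) [IsProbabilityMeasure μ] (m : ℤ) :
    1 - (hat μ m).re = ∫ x, (1 - (fourier m x : ℂ).re) ∂μ := by
  have h1 : (hat μ m).re = ∫ x, (fourier m x : ℂ).re ∂μ := by
    unfold hat
    exact (integral_re (integrable_f μ m)).symm
  have h2 : Integrable (fun x : TT => (fourier m x : ℂ).re) μ := (integrable_f μ m).re
  rw [h1, integral_sub (integrable_const _) h2]
  simp

/-- mass away from zero -/
lemma far_mass (μ : Measure TT) [IsProbabilityMeasure μ] {r : ℝ} (hr : 0 < r) :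
    μ.real {x | r ≤ ‖x‖} ≤ (1 - (hat μ 1).re) / (8 * r ^ 2) := by
  rw [le_div_iff₀ (by positivity), hat_re μ 1]
  have hm : MeasurableSet {x : TT | r ≤ ‖x‖} :=
    (isClosed_le continuous_const continuous_norm).measurableSet
  calc μ.real {x | r ≤ ‖x‖} * (8 * r ^ 2)
      = ∫ x, Set.indicator {x : TT | r ≤ ‖x‖} (fun _ => 8 * r ^ 2) x ∂μ := by
        rw [integral_indicator hm, setIntegral_const, smul_eq_mul]
    _ ≤ _ := by
        apply integral_mono
        · exact (integrable_const _).indicator hm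
        · exact (integrable_const _).sub (integrable_f μ 1).re
        · intro x
          have h1 := re_lower 1 x
          rw [one_smul] at h1
          by_cases hx : r ≤ ‖x‖
          · rw [Set.indicator_of_mem (show x ∈ {x : TT | r ≤ ‖x‖} from hx)]
            have h2 : r ^ 2 ≤ ‖x‖ ^ 2 := by gcongr
            linarith
          · rw [Set.indicator_of_notMem (show x ∉ {x : TT | r ≤ ‖x‖} from hx)]
            have h2 := sq_nonneg ‖x‖
            linarith

lemma re_le_one (μ : Measure TT) [IsProbabilityMeasure μ] (m : ℤ) : (hat μ m).re ≤ 1 :=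
  (Complex.re_le_norm _).trans (norm_hat_le μ m)

/-- The gap bounds the mass off zero. -/
lemma gap_atom {p q : ℕ} {c : ℝ} (hG : Gap p q c) (μ : Measure TT) [IsProbabilityMeasure μ]
    (hp : MeasurePreserving (fun x : TT => p • x) μ μ)
    (hq : MeasurePreserving (fun x : TT => q • x) μ μ) :
    c * (1 - μ.real {0}) ≤ 1 - (hat μ 1).re := by
  set z := μ.real {0} with hz
  have hz1 : z ≤ 1 := measureReal_le_one
  rcases hz1.lt_or_eq with hlt | heq
  · have hs : MeasurableSet ({0}ᶜ : Set TT) := (measurableSet_singleton 0).compl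
    have hmass : μ.real {0}ᶜ = 1 - z := by
      rw [measureReal_compl (measurableSet_singleton 0)]; simp [hz]
    have hne : μ {0}ᶜ ≠ 0 := by
      intro h
      have : μ.real {0}ᶜ = 0 := by rw [measureReal_def, h]; rfl
      rw [hmass] at this
      linarith
    have hrne : μ.restrict {0}ᶜ ≠ 0 := by
      intro h
      apply hne
      have := congrArg (fun m : Measure TT => m Set.univ) h
      simpa using this
    set ν : Measure TT := (μ {0}ᶜ)⁻¹ • μ.restrict {0}ᶜ with hν
    have hνp : IsProbabilityMeasure ν := by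
      refine ⟨?_⟩
      rw [hν, Measure.smul_apply, Measure.restrict_apply_univ, smul_eq_mul]
      exact ENNReal.inv_mul_cancel hne (measure_ne_top _ _)
    have hpr := mp_restrict hp (measure_ne_top μ _)
    have hqr := mp_restrict hq (measure_ne_top μ _)
    have h1 := hG ν hνp (hpr.smul_measure _) (hqr.smul_measure _) (by
      rw [hν, Measure.smul_apply, Measure.restrict_apply (measurableSet_singleton 0)]
      simp)
    have h2 : hat μ 1 = z + (1 - z : ℝ) * hat ν 1 := by
      have e1 : hat ν 1 = ((μ.real {0}ᶜ)⁻¹ : ℝ) * ∫ x in {0}ᶜ, (fourier 1 x : ℂ) ∂μ := by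
        unfold hat
        rw [hν, integral_smul_measure, ENNReal.toReal_inv]
        rw [← measureReal_def]
        simp [Complex.real_smul]
      have e2 : hat μ 1 = (∫ x in {0}, (fourier 1 x : ℂ) ∂μ) +
          ∫ x in {0}ᶜ, (fourier 1 x : ℂ) ∂μ :=
        (integral_add_compl (measurableSet_singleton 0) (integrable_f μ 1)).symm
      have e3 : (∫ x in {0}, (fourier 1 x : ℂ) ∂μ) = z := by
        rw [integral_singleton, f_zero, hz]
        simp [Complex.real_smul]
      rw [e2, e3, e1, hmass]
      have hne' : ((1 - z : ℝ) : ℂ) ≠ 0 := by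
        exact_mod_cast (by linarith : (1 - z : ℝ) ≠ 0)
      push_cast
      push_cast at hne'
      rw [← mul_assoc, mul_inv_cancel₀ hne', one_mul]
    have h3 : (hat μ 1).re = z + (1 - z) * (hat ν 1).re := by
      rw [h2, Complex.add_re, Complex.ofReal_re, Complex.re_ofReal_mul]
    rw [h3]
    have h4 : (1 - z) * (hat ν 1).re ≤ (1 - z) * (1 - c) :=
      mul_le_mul_of_nonneg_left h1 (by linarith)
    nlinarith
  · rw [heq]
    have := re_le_one μ 1
    linarith

lemma sym_zero {m : ℤ} (hm : m ≠ 0) {μ : Measure TT} [IsProbabilityMeasure μ]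
    (h : ∀ x, μ {x} = 0) : sym m μ {0} = 0 := by
  unfold sym
  rw [Measure.map_apply (by fun_prop) (measurableSet_singleton 0),
    Measure.prod_apply (measurableSet_preimage (by fun_prop) (measurableSet_singleton 0))]
  rw [lintegral_eq_zero_iff (measurable_measure_prodMk_left
    (measurableSet_preimage (by fun_prop) (measurableSet_singleton 0)))]
  refine Eventually.of_forall fun y => ?_
  have hfin : {x : TT | m • x = 0}.Finite := by
    have h1 := AddCircle.finite_torsion (p := (1 : ℝ)) (by omega : 0 < m.natAbs)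
    refine h1.subset ?_
    intro x hx
    have hx' : m • x = 0 := hx
    show m.natAbs • x = 0
    rcases Int.natAbs_eq m with he | he
    · rw [← natCast_zsmul, ← he]; exact hx'
    · rw [← natCast_zsmul]
      have : (m.natAbs : ℤ) = -m := by omega
      rw [this, neg_smul, hx', neg_zero]
  have hsub : (Prod.mk y ⁻¹' ((fun z : TT × TT => m • (z.1 - z.2)) ⁻¹' {0})) ⊆
      (fun x => y - x) '' {x : TT | m • x = 0} := by
    intro w hw
    refine ⟨y - w, ?_, by simp⟩
    exact hw
  have : NullSingletonClass μ := ⟨h⟩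
  exact ((hfin.image _).subset hsub).measure_zero μ

/-- the symmetrised roots -/
lemma sym_root {p q : ℕ} {μ : Measure TT} [IsProbabilityMeasure μ]
    (hp : MeasurePreserving (fun x : TT => p • x) μ μ)
    (hq : MeasurePreserving (fun x : TT => q • x) μ μ) {m : ℤ} {n : ℕ} (hn : 1 ≤ n)
    {ρ : Measure TT} [IsProbabilityMeasure ρ] (hρ : nfold n ρ = μ) (hne : hat μ m ≠ 0) :
    MeasurePreserving (fun x : TT => p • x) (sym m ρ) (sym m ρ) ∧
    MeasurePreserving (fun x : TT => q • x) (sym m ρ) (sym m ρ) ∧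
    nfold n (sym m ρ) = sym m μ ∧
    1 - (hat (sym m ρ) 1).re ≤ (-2 * Real.log ‖hat μ m‖) / n := by
  have hn0 : n ≠ 0 := by omega
  have hnR : (0 : ℝ) < n := by exact_mod_cast (by omega : 0 < n)
  have hk : ∀ k : ℤ, ‖hat ρ k‖ ^ n = ‖hat μ k‖ := by
    intro k
    rw [← hρ, hat_nfold, norm_pow]
  have hinv : ∀ d : ℕ, MeasurePreserving (fun x : TT => d • x) μ μ →
      MeasurePreserving (fun x : TT => d • x) (sym m ρ) (sym m ρ) := by
    intro d hd
    rw [inv_iff] at hd ⊢
    intro k
    rw [hat_sym, hat_sym]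
    congr 2
    have h1 : ‖hat ρ (k * d * m)‖ ^ n = ‖hat ρ (k * m)‖ ^ n := by
      rw [hk, hk, show k * (d : ℤ) * m = k * m * d by ring, hd]
    exact (pow_left_inj₀ (norm_nonneg _) (norm_nonneg _) hn0).1 h1
  refine ⟨hinv p hp, hinv q hq, ?_, ?_⟩
  · apply ext_hat
    intro k
    rw [hat_nfold, hat_sym, hat_sym, ← hk, ← Complex.ofReal_pow]
    congr 1
    rw [← pow_mul, ← pow_mul, mul_comm 2 n]
  · rw [hat_sym, Complex.ofReal_re, one_mul]
    have hpos : 0 < ‖hat μ m‖ := norm_pos_iff.2 hne
    have hρpos : 0 < ‖hat ρ m‖ := by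
      rcases (norm_nonneg (hat ρ m)).lt_or_eq with h | h
      · exact h
      · exfalso
        have := hk m
        rw [← h, zero_pow hn0] at this
        linarith
    have h1 : Real.log ‖hat ρ m‖ = Real.log ‖hat μ m‖ / n := by
      rw [← hk m, Real.log_pow]
      field_simp
    have h2 : ‖hat ρ m‖ ^ 2 = Real.exp (2 * Real.log ‖hat μ m‖ / n) := by
      rw [mul_div_assoc, ← h1, two_mul, Real.exp_add, Real.exp_log hρpos, sq]
    rw [h2]
    have h3 := Real.add_one_le_exp (2 * Real.log ‖hat μ m‖ / n)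
    have h4 : -2 * Real.log ‖hat μ m‖ / n = -(2 * Real.log ‖hat μ m‖ / n) := by ring
    rw [h4]
    linarith

/-- **The gap implies rigidity of infinitely divisible measures.** -/
theorem id_of_gap {p q : ℕ} {c : ℝ} (hc : 0 < c) (hG : Gap p q c) (μ : Measure TT)
    [IsProbabilityMeasure μ] (h0 : ∀ x, μ {x} = 0)
    (hp : MeasurePreserving (fun x : TT => p • x) μ μ)
    (hq : MeasurePreserving (fun x : TT => q • x) μ μ)
    (hid : ∀ n : ℕ, 1 ≤ n → ∃ ρ : Measure TT, IsProbabilityMeasure ρ ∧ nfold n ρ = μ) :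
    μ = volume := by
  apply ext_hat
  intro m
  by_cases hm : m = 0
  · subst hm
    unfold hat
    simp [measureReal_def, AddCircle.measure_univ]
  rw [hat_vol hm]
  by_contra hne
  set B : ℝ := -2 * Real.log ‖hat μ m‖ with hB
  have hB0 : 0 ≤ B := by
    have := Real.log_nonpos (norm_nonneg _) (norm_hat_le μ m)
    rw [hB]; linarith
  obtain ⟨n, hn⟩ := exists_nat_gt (B / c)
  have hnR : (0 : ℝ) < n := lt_of_le_of_lt (div_nonneg hB0 hc.le) hn
  have hn1 : 1 ≤ n := by
    have : 0 < n := by exact_mod_cast hnR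
    omega
  obtain ⟨ρ, hρ, hρn⟩ := hid n hn1
  obtain ⟨h1, h2, h3, h4⟩ := sym_root hp hq hn1 hρn hne
  have h5 := gap_atom hG (sym m ρ) h1 h2
  have h6 : c * (1 - (sym m ρ).real {0}) ≤ B / n := h5.trans h4
  have h7 : 0 < (sym m ρ).real {0} := by
    have h8 : 1 - (sym m ρ).real {0} ≤ B / n / c := by
      rw [le_div_iff₀ hc]; linarith
    have h9 : B / n / c < 1 := by
      rw [div_div, div_lt_one (by positivity)]
      rw [div_lt_iff₀ hc] at hn
      exact hn
    linarith
  have h8 : 0 < (sym m ρ) {0} := by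
    rw [measureReal_def] at h7
    exact (ENNReal.toReal_pos_iff.1 h7).1
  have h9 := nfold_zero_ge n (sym m ρ)
  rw [h3, sym_zero hm h0] at h9
  have h10 : 0 < (sym m ρ) {0} ^ n := ENNReal.pow_pos h8 n
  exact absurd (le_antisymm h9 zero_le) h10.ne'

end Pool.Agent.U106.TR.RC
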